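import Pool.Agent.Lib.MP_7518b9_an.Selective

/-!
# The abstract construction
-/

open Filter Topology Set
open scoped BoundedContinuousFunction

namespace Pool.Agent.Lib.MP_7518b9_an

variable {𝕜 : Type*} [RCLike 𝕜] {E : Type*} [NormedAddCommGroup E] [NormedSpace 𝕜 E]
  {U : Ultrafilter ℕ}

/-! ### Functionals on the ultrapower -/

theorem exists_tendsto_ultrafilter (a : ℕ → 𝕜) (C : ℝ) (ha : ∀ n, ‖a n‖ ≤ C) :
    ∃ L, Tendsto a U (𝓝 L) := by
  obtain ⟨L, _, h⟩ := (isCompact_closedBall (0 : 𝕜) C).ultrafilter_le_nhds (U.map a) (by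
    rw [Filter.le_principal_iff]
    exact Filter.mem_map.2 (Filter.univ_mem' fun n => by simpa using ha n))
  exact ⟨L, h⟩

/-- The limit along the ultrafilter `U`. -/
noncomputable def ulim (U : Ultrafilter ℕ) (a : ℕ → 𝕜) : 𝕜 := limUnder (U : Filter ℕ) a

theorem tendsto_ulim {a : ℕ → 𝕜} (C : ℝ) (ha : ∀ n, ‖a n‖ ≤ C) :
    Tendsto a U (𝓝 (ulim U a)) :=
  tendsto_nhds_limUnder (exists_tendsto_ultrafilter a C ha)

theorem norm_apply_bdd {f : ℕ → E →L[𝕜] 𝕜} {C : ℝ} (hf : ∀ n, ‖f n‖ ≤ C) (x : ℕ →ᵇ E) (n : ℕ) :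
    ‖f n (x n)‖ ≤ C * ‖x‖ :=
  ((f n).le_opNorm _).trans (mul_le_mul (hf n) (x.norm_coe_le_norm n) (norm_nonneg _)
    ((norm_nonneg _).trans (hf n)))

theorem tendsto_ulim_apply {f : ℕ → E →L[𝕜] 𝕜} {C : ℝ} (hf : ∀ n, ‖f n‖ ≤ C) (x : ℕ →ᵇ E) :
    Tendsto (fun n => f n (x n)) U (𝓝 (ulim U fun n => f n (x n))) :=
  tendsto_ulim (C * ‖x‖) (norm_apply_bdd hf x)

/-- The functional `(x_n)_U ↦ lim_U f_n(x_n)` on the ultrapower. -/
noncomputable def uFun (U : Ultrafilter ℕ) (f : ℕ → E →L[𝕜] 𝕜) (C : ℝ) (hf : ∀ n, ‖f n‖ ≤ C) :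
    Ultrapower 𝕜 E U →L[𝕜] 𝕜 :=
  LinearMap.mkContinuous (E := Ultrapower 𝕜 E U)
    (Submodule.liftQ (nullSeq 𝕜 E U)
      { toFun := fun x : ℕ →ᵇ E => ulim U fun n => f n (x n)
        map_add' := by
          intro x y
          refine tendsto_nhds_unique (tendsto_ulim_apply hf (x + y)) ?_
          refine ((tendsto_ulim_apply hf x).add (tendsto_ulim_apply hf y)).congr fun n => ?_
          simp
        map_smul' := by
          intro c x
          refine tendsto_nhds_unique (tendsto_ulim_apply hf (c • x)) ?_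
          refine ((tendsto_ulim_apply hf x).const_mul c).congr fun n => ?_
          simp }
      (by
        intro x hx
        rw [LinearMap.mem_ker]
        refine tendsto_nhds_unique (tendsto_ulim_apply hf x) ?_
        refine squeeze_zero_norm (a := fun n => C * ‖x n‖) (fun n => ?_) ?_
        · exact ((f n).le_opNorm _).trans (mul_le_mul_of_nonneg_right (hf n) (norm_nonneg _))
        · simpa using (mem_nullSeq.1 hx).const_mul C))
    C (by
      intro q
      induction q using umk_induction with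
      | H x =>
        have h1 := (tendsto_ulim_apply (U := U) hf x).norm
        have h2 := (tendsto_norm_umk (𝕜 := 𝕜) (U := U) x).const_mul C
        exact le_of_tendsto_of_tendsto' h1 h2 fun n =>
          ((f n).le_opNorm _).trans (mul_le_mul_of_nonneg_right (hf n) (norm_nonneg _)))

theorem tendsto_uFun (f : ℕ → E →L[𝕜] 𝕜) (C : ℝ) (hf : ∀ n, ‖f n‖ ≤ C) (x : ℕ →ᵇ E) :
    Tendsto (fun n => f n (x n)) U (𝓝 (uFun U f C hf (umk x))) :=
  tendsto_ulim_apply hf x

theorem norm_uFun_le (f : ℕ → E →L[𝕜] 𝕜) (C : ℝ) (hC : 0 ≤ C) (hf : ∀ n, ‖f n‖ ≤ C) :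
    ‖uFun U f C hf‖ ≤ C :=
  LinearMap.mkContinuous_norm_le _ hC _

/-- A bounded sequence as an element of `ℓ^∞(E)`. -/
noncomputable def bseq (x : ℕ → E) (C : ℝ) (hx : ∀ n, ‖x n‖ ≤ C) : ℕ →ᵇ E :=
  BoundedContinuousFunction.ofNormedAddCommGroup x continuous_of_discreteTopology C hx

@[simp] theorem bseq_apply (x : ℕ → E) (C : ℝ) (hx : ∀ n, ‖x n‖ ≤ C) (n : ℕ) :
    bseq x C hx n = x n := rfl

/-! ### The operators `T_A` -/

/-- Data for the operators `T_A z = ∑_{n ∈ A} g_n(z) v_n`. -/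
structure Data (v : ℕ → E) (g : ℕ → E →L[𝕜] 𝕜) (C : ℝ) : Prop where
  pos : 0 < C
  upper : ∀ (F : Finset ℕ) (a : ℕ → 𝕜), ‖∑ n ∈ F, a n • v n‖ ^ 2 ≤ C * ∑ n ∈ F, ‖a n‖ ^ 2
  lower : ∀ (F : Finset ℕ) (z : E), ∑ n ∈ F, ‖g n z‖ ^ 2 ≤ C * ‖z‖ ^ 2

section TA

variable {v : ℕ → E} {g : ℕ → E →L[𝕜] 𝕜} {C : ℝ}

/-- The terms of the series `T_A z`. -/
noncomputable def term (v : ℕ → E) (g : ℕ → E →L[𝕜] 𝕜) (A : Set ℕ) (z : E) (n : ℕ) : E :=
  A.indicator (fun n => g n z • v n) n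

theorem norm_sum_term_sq_le (D : Data v g C) (A : Set ℕ) (z : E) (F : Finset ℕ) (δ : ℝ)
    (h : ∀ G : Finset ℕ, G ⊆ F → (∀ n ∈ G, n ∈ A) → ∑ n ∈ G, ‖g n z‖ ^ 2 ≤ δ) :
    ‖∑ n ∈ F, term v g A z n‖ ^ 2 ≤ C * δ := by
  classical
  have h1 : ∑ n ∈ F, term v g A z n = ∑ n ∈ F.filter (· ∈ A), g n z • v n := by
    rw [Finset.sum_filter]
    refine Finset.sum_congr rfl fun n _ => ?_
    simp [term, Set.indicator_apply]
  rw [h1]
  refine (D.upper _ _).trans (mul_le_mul_of_nonneg_left ?_ D.pos.le)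
  exact h _ (Finset.filter_subset _ _) fun n hn => (Finset.mem_filter.1 hn).2

theorem summable_term [CompleteSpace E] (D : Data v g C) (A : Set ℕ) (z : E) :
    Summable (term v g A z) := by
  classical
  have hs : Summable fun n => ‖g n z‖ ^ 2 :=
    summable_of_sum_le (fun n => by positivity) fun F => D.lower F z
  rw [summable_iff_vanishing_norm]
  intro ε hε
  obtain ⟨s, hs'⟩ := summable_iff_vanishing_norm.1 hs (ε ^ 2 / (2 * C))
    (div_pos (by positivity) (mul_pos two_pos D.pos))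
  refine ⟨s, fun t ht => ?_⟩
  have h1 : ‖∑ n ∈ t, term v g A z n‖ ^ 2 ≤ C * (ε ^ 2 / (2 * C)) := by
    refine norm_sum_term_sq_le D A z t _ fun G hG _ => ?_
    exact (le_abs_self _).trans (hs' G (Finset.disjoint_of_subset_left hG ht)).le
  have h2 : C * (ε ^ 2 / (2 * C)) < ε ^ 2 := by
    have := D.pos
    have h3 : C * (ε ^ 2 / (2 * C)) = ε ^ 2 / 2 := by field_simp
    rw [h3]
    have : 0 < ε ^ 2 := by positivity
    linarith
  exact lt_of_pow_lt_pow_left₀ 2 hε.le (h1.trans_lt h2)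

/-- `T_A z` as a sum. -/
noncomputable def taFun (v : ℕ → E) (g : ℕ → E →L[𝕜] 𝕜) (A : Set ℕ) (z : E) : E :=
  ∑' n, term v g A z n

theorem norm_taFun_sq_le [CompleteSpace E] (D : Data v g C) (A : Set ℕ) (z : E) (δ : ℝ)
    (h : ∀ F : Finset ℕ, (∀ n ∈ F, n ∈ A) → ∑ n ∈ F, ‖g n z‖ ^ 2 ≤ δ) :
    ‖taFun v g A z‖ ^ 2 ≤ C * δ := by
  have h1 : Tendsto (fun F : Finset ℕ => ‖∑ n ∈ F, term v g A z n‖ ^ 2) atTop
      (𝓝 (‖taFun v g A z‖ ^ 2)) := ((summable_term D A z).hasSum.norm).pow 2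
  exact le_of_tendsto' h1 fun F => norm_sum_term_sq_le D A z F δ fun G _ hG => h G hG

/-- The operator `T_A z = ∑_{n ∈ A} g_n(z) v_n`. -/
noncomputable def TA [CompleteSpace E] (D : Data v g C) (A : Set ℕ) : E →L[𝕜] E :=
  LinearMap.mkContinuous
    { toFun := taFun v g A
      map_add' := by
        intro x y
        unfold taFun
        rw [← (summable_term D A x).tsum_add (summable_term D A y)]
        congr 1
        ext n
        by_cases hn : n ∈ A <;> simp [term, hn, add_smul]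
      map_smul' := by
        intro c x
        unfold taFun
        rw [RingHom.id_apply, ← (summable_term D A x).tsum_const_smul c]
        congr 1
        ext n
        by_cases hn : n ∈ A <;> simp [term, hn, mul_smul] }
    C (by
      intro z
      have h := norm_taFun_sq_le D A z (C * ‖z‖ ^ 2) fun F _ => D.lower F z
      have h2 : C * (C * ‖z‖ ^ 2) = (C * ‖z‖) ^ 2 := by ring
      rw [h2] at h
      exact le_of_sq_le_sq h (mul_nonneg D.pos.le (norm_nonneg _)))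

theorem TA_apply [CompleteSpace E] (D : Data v g C) (A : Set ℕ) (z : E) :
    TA D A z = taFun v g A z := rfl

theorem taFun_eq_add [CompleteSpace E] (D : Data v g C) (A : Set ℕ) (z : E) {k : ℕ} (hk : k ∈ A) :
    taFun v g A z = g k z • v k + taFun v g (A \ {k}) z := by
  unfold taFun
  rw [(summable_term D A z).tsum_eq_add_tsum_ite k]
  congr 1
  · simp [term, hk]
  · congr 1
    ext n
    by_cases hn : n = k
    · simp [hn, term]
    · by_cases hA : n ∈ A <;> simp [hn, term, hA]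

end TA

end Pool.Agent.Lib.MP_7518b9_an
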