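import Pool.Agent.Lib.MP_7518b9_an.Abstract

/-!
# The rank-one operators in the closure, and the bound on bounded closures
-/

open Filter Topology Set
open scoped BoundedContinuousFunction

namespace Pool.Agent.Lib.MP_7518b9_an

variable {𝕜 : Type*} [RCLike 𝕜] {E : Type*} [NormedAddCommGroup E] [NormedSpace 𝕜 E]
  {U : Ultrafilter ℕ}

section mem

variable {v : ℕ → E} {g : ℕ → E →L[𝕜] 𝕜} {C : ℝ}

/-- The rank one operator `z ↦ lim_U g_n(z_n) • (v_n)_U`. -/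
noncomputable def rankOne (U : Ultrafilter ℕ) (v : ℕ → E) (g : ℕ → E →L[𝕜] 𝕜)
    (Cv : ℝ) (hv : ∀ n, ‖v n‖ ≤ Cv) (Cg : ℝ) (hg : ∀ n, ‖g n‖ ≤ Cg) :
    Ultrapower 𝕜 E U →L[𝕜] Ultrapower 𝕜 E U :=
  (uFun U g Cg hg).smulRight (umk (bseq v Cv hv))

theorem rankOne_apply (Cv : ℝ) (hv : ∀ n, ‖v n‖ ≤ Cv) (Cg : ℝ) (hg : ∀ n, ‖g n‖ ≤ Cg)
    (q : Ultrapower 𝕜 E U) :
    rankOne U v g Cv hv Cg hg q = uFun U g Cg hg q • umk (bseq v Cv hv) := rfl

theorem norm_rankOne_le (Cv : ℝ) (hCv : 0 ≤ Cv) (hv : ∀ n, ‖v n‖ ≤ Cv) (Cg : ℝ) (hCg : 0 ≤ Cg)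
    (hg : ∀ n, ‖g n‖ ≤ Cg) : ‖rankOne U v g Cv hv Cg hg‖ ≤ Cg * Cv := by
  unfold rankOne
  rw [ContinuousLinearMap.norm_smulRight_apply]
  refine mul_le_mul (norm_uFun_le g Cg hCg hg) ?_ (norm_nonneg _) hCg
  exact norm_umk_le_of_eventually hCv (Filter.Eventually.of_forall hv)

theorem rankOne_mem_wotClosure [CompleteSpace E] (hU : IsSelective U) (D : Data v g C)
    (Cv : ℝ) (hv : ∀ n, ‖v n‖ ≤ Cv) (Cg : ℝ) (hg : ∀ n, ‖g n‖ ≤ Cg) :
    rankOne U v g Cv hv Cg hg ∈ wotClosure 𝕜 E U := by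
  have hCv : 0 ≤ Cv := (norm_nonneg _).trans (hv 0)
  let l : Filter (Set ℕ) := (U : Filter ℕ).smallSets ⊓ 𝓟 {A | A ∈ (U : Filter ℕ)}
  have hl : l.NeBot := frequently_iff_neBot.1 (frequently_smallSets_mem (U : Filter ℕ))
  refine mem_closure_of_tendsto (b := l)
    (f := fun A => ContinuousLinearMapWOT.ofCLM (ultraMap U (TA D A))) ?_
    (Filter.Eventually.of_forall fun A => ⟨TA D A, rfl⟩)
  rw [ContinuousLinearMapWOT.tendsto_iff_forall_dual_apply_tendsto]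
  intro q y
  induction q using umk_induction with
  | H z =>
    -- norm estimate
    have key : ∀ ε > 0, ∀ᶠ A in l, ‖ultraMap U (TA D A) (umk z) -
        rankOne U v g Cv hv Cg hg (umk z)‖ ≤ ε := by
      intro ε hε
      obtain ⟨A₀, hA₀, hA₀'⟩ := hU.exists_small_offdiag (fun k n => ‖g n (z k)‖ ^ 2)
        (fun k n => by positivity) (C * ‖z‖ ^ 2) (fun k F => (D.lower F (z k)).trans (by
          have := D.pos
          gcongr
          exact z.norm_coe_le_norm k)) ((ε / 2) ^ 2 / C) (div_pos (by positivity) D.pos)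
      rw [Filter.eventually_inf_principal, Filter.eventually_smallSets]
      refine ⟨A₀, hA₀, fun A hAA₀ hA => ?_⟩
      set φ := uFun U g Cg hg (umk z) with hφ
      have h1 : ultraMap U (TA D A) (umk z) -
          rankOne U v g Cv hv Cg hg (umk z) =
          umk ((TA D A).compLeftContinuousBounded ℕ z - φ • bseq v Cv hv) := by
        rw [ultraMap_umk, rankOne_apply, umk_sub, umk_smul]
      rw [h1]
      refine norm_umk_le_of_eventually hε.le ?_
      have h2 : ∀ᶠ k in (U : Filter ℕ), ‖g k (z k) - φ‖ * Cv < ε / 2 := by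
        have h3 : Tendsto (fun k => ‖g k (z k) - φ‖ * Cv) U (𝓝 (‖φ - φ‖ * Cv)) :=
          (((tendsto_uFun g Cg hg z).sub_const φ).norm).mul_const Cv
        rw [sub_self, norm_zero, zero_mul] at h3
        exact h3.eventually (gt_mem_nhds (by positivity))
      have hA' : ∀ᶠ k in (U : Filter ℕ), k ∈ A := hA
      filter_upwards [h2, hA'] with k hk hkA
      have h4 : ((TA D A).compLeftContinuousBounded ℕ z - φ • bseq v Cv hv) k =
          (g k (z k) - φ) • v k + taFun v g (A \ {k}) (z k) := by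
        show TA D A (z k) - φ • v k = _
        rw [TA_apply, taFun_eq_add D A (z k) hkA, sub_smul]
        abel
      rw [h4]
      have h5 : ‖taFun v g (A \ {k}) (z k)‖ ≤ ε / 2 := by
        have h6 := norm_taFun_sq_le D (A \ {k}) (z k) ((ε / 2) ^ 2 / C) fun F hF =>
          hA₀' k (hAA₀ hkA) F (fun n hn => hAA₀ (hF n hn).1) fun hkF => (hF k hkF).2 rfl
        have h7 : C * ((ε / 2) ^ 2 / C) = (ε / 2) ^ 2 := by
          have := D.pos.ne'
          field_simp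
        rw [h7] at h6
        exact le_of_sq_le_sq h6 (by positivity)
      calc ‖(g k (z k) - φ) • v k + taFun v g (A \ {k}) (z k)‖
          ≤ ‖g k (z k) - φ‖ * ‖v k‖ + ε / 2 := by
            refine (norm_add_le _ _).trans (add_le_add ?_ h5)
            rw [norm_smul]
        _ ≤ ‖g k (z k) - φ‖ * Cv + ε / 2 := by
            gcongr
            exact hv k
        _ ≤ ε := by linarith
    rw [Metric.tendsto_nhds]
    intro ε hε
    filter_upwards [key (ε / (2 * (‖y‖ + 1))) (by positivity)] with A hA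
    rw [dist_eq_norm]
    simp only [ContinuousLinearMapWOT.ofCLM_apply]
    rw [← map_sub]
    calc ‖y (ultraMap U (TA D A) (umk z) -
        rankOne U v g Cv hv Cg hg (umk z))‖
        ≤ ‖y‖ * (ε / (2 * (‖y‖ + 1))) := (y.le_opNorm _).trans
          (mul_le_mul_of_nonneg_left hA (norm_nonneg _))
      _ ≤ (‖y‖ + 1) * (ε / (2 * (‖y‖ + 1))) := by gcongr; linarith
      _ = ε / 2 := by field_simp
      _ < ε := by linarith

end mem

/-! ### Sign choices -/

theorem exists_signs (b : ℕ → ℕ → ℝ) (F : Finset ℕ) :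
    ∃ θ : ℕ → ℝ, (∀ n, θ n = 1 ∨ θ n = -1) ∧
      ∑ n ∈ F, b n n ≤ ∑ n ∈ F, ∑ k ∈ F, θ n * θ k * b n k := by
  classical
  induction F using Finset.induction_on with
  | empty => exact ⟨fun _ => 1, fun _ => Or.inl rfl, by simp⟩
  | @insert j F hj ih =>
    obtain ⟨θ, hθ, h⟩ := ih
    -- the new sign
    obtain ⟨s, hs, hs'⟩ : ∃ s : ℝ, (s = 1 ∨ s = -1) ∧
        0 ≤ s * ∑ n ∈ F, θ n * (b n j + b j n) := by
      rcases le_total 0 (∑ n ∈ F, θ n * (b n j + b j n)) with h1 | h1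
      · exact ⟨1, Or.inl rfl, by simpa using h1⟩
      · exact ⟨-1, Or.inr rfl, by linarith⟩
    refine ⟨Function.update θ j s, fun n => ?_, ?_⟩
    · by_cases hn : n = j
      · subst hn; simpa using hs
      · simpa [hn] using hθ n
    · have hup : ∀ n ∈ F, Function.update θ j s n = θ n := fun n hn => by
        have : n ≠ j := fun h => hj (h ▸ hn)
        simp [this]
      have hss : s * s = 1 := by rcases hs with rfl | rfl <;> norm_num
      rw [Finset.sum_insert hj, Finset.sum_insert hj, Finset.sum_insert hj]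
      simp only [Function.update_self]
      have h2 : ∑ k ∈ F, s * Function.update θ j s k * b j k = s * ∑ k ∈ F, θ k * b j k := by
        rw [Finset.mul_sum]
        refine Finset.sum_congr rfl fun k hk => ?_
        rw [hup k hk]; ring
      have h3 : ∑ n ∈ F, ∑ k ∈ insert j F, Function.update θ j s n * Function.update θ j s k *
          b n k = s * ∑ n ∈ F, θ n * b n j + ∑ n ∈ F, ∑ k ∈ F, θ n * θ k * b n k := by
        rw [Finset.mul_sum, ← Finset.sum_add_distrib]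
        refine Finset.sum_congr rfl fun n hn => ?_
        rw [Finset.sum_insert hj, hup n hn, Function.update_self]
        congr 1
        · ring
        · refine Finset.sum_congr rfl fun k hk => ?_
          rw [hup k hk]
      rw [h2, h3, hss, one_mul]
      have h4 : s * ∑ n ∈ F, θ n * (b n j + b j n) =
          s * ∑ k ∈ F, θ k * b j k + s * ∑ n ∈ F, θ n * b n j := by
        rw [← mul_add, ← Finset.sum_add_distrib]
        congr 1
        refine Finset.sum_congr rfl fun n _ => ?_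
        ring
      linarith

section kappa

variable {x : ℕ → E} {h : ℕ → E →L[𝕜] 𝕜}

/-- The sign condition: for `m`-element sets `F` and signs `θ`, the product of the norms of
`∑ θ_n x_n` and `∑ θ_n h_n` is at most `κ m`. -/
def SignBound (x : ℕ → E) (h : ℕ → E →L[𝕜] 𝕜) (m : ℕ) (κ : ℝ) : Prop :=
  ∀ (F : Finset ℕ), F.card = m → ∀ θ : ℕ → ℝ, (∀ n, θ n = 1 ∨ θ n = -1) →
    ‖∑ n ∈ F, (θ n : 𝕜) • x n‖ * ‖∑ n ∈ F, (θ n : 𝕜) • h n‖ ≤ κ * m

theorem SignBound.norm_uFun_le {m : ℕ} {κ : ℝ} (hκ : SignBound x h m κ) (hm : 0 < m)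
    (hU : IsSelective U)
    (Cx : ℝ) (hx : ∀ n, ‖x n‖ ≤ Cx) (Ch : ℝ) (hh : ∀ n, ‖h n‖ ≤ Ch) (T : E →L[𝕜] E) :
    ‖uFun U h Ch hh (ultraMap U T (umk (bseq x Cx hx)))‖ ≤ κ * ‖T‖ := by
  rw [ultraMap_umk]
  set L := uFun U h Ch hh (umk (T.compLeftContinuousBounded ℕ (bseq x Cx hx)))
    with hL
  have hlim : Tendsto (fun n => h n (T (x n))) U (𝓝 L) := tendsto_uFun h Ch hh _
  obtain ⟨w, hw, hwL⟩ : ∃ w : 𝕜, ‖w‖ = 1 ∧ w * L = (‖L‖ : 𝕜) := by
    by_cases h0 : L = 0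
    · exact ⟨1, by simp, by simp [h0]⟩
    · refine ⟨(‖L‖ : 𝕜) / L, ?_, div_mul_cancel₀ _ h0⟩
      rw [norm_div, RCLike.norm_ofReal, abs_norm, div_self (norm_ne_zero_iff.2 h0)]
  refine le_of_forall_pos_le_add fun ε hε => ?_
  have hlim' : Tendsto (fun n => RCLike.re (w * h n (T (x n)))) U (𝓝 ‖L‖) := by
    have h1 : Tendsto (fun n => RCLike.re (w * h n (T (x n)))) U (𝓝 (RCLike.re (w * L))) :=
      (RCLike.continuous_re.tendsto _).comp (hlim.const_mul w)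
    rwa [hwL, RCLike.ofReal_re] at h1
  have hev : {n | ‖L‖ - ε < RCLike.re (w * h n (T (x n)))} ∈ (U : Filter ℕ) :=
    hlim'.eventually (lt_mem_nhds (by linarith))
  have hinf : {n | ‖L‖ - ε < RCLike.re (w * h n (T (x n)))}.Infinite := fun hfin =>
    hU.finite_notMem hfin hev
  obtain ⟨F, hFs, hFc⟩ := hinf.exists_subset_card_eq m
  obtain ⟨θ, hθ, hsum⟩ := exists_signs (fun n k => RCLike.re (w * h n (T (x k)))) F
  have h1 : (m : ℝ) * (‖L‖ - ε) ≤ ∑ n ∈ F, RCLike.re (w * h n (T (x n))) := by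
    rw [← hFc, ← nsmul_eq_mul]
    exact Finset.card_nsmul_le_sum _ _ _ fun n hn => (hFs hn).le
  have h2 : ∑ n ∈ F, ∑ k ∈ F, θ n * θ k * RCLike.re (w * h n (T (x k))) =
      RCLike.re (w * (∑ n ∈ F, (θ n : 𝕜) • h n) (T (∑ k ∈ F, (θ k : 𝕜) • x k))) := by
    rw [sum_apply, Finset.mul_sum, map_sum]
    refine Finset.sum_congr rfl fun n _ => ?_
    rw [map_sum, smul_apply, map_sum, Finset.smul_sum, Finset.mul_sum, map_sum]
    refine Finset.sum_congr rfl fun k _ => ?_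
    rw [map_smul, map_smul, smul_eq_mul, smul_eq_mul]
    rw [show w * ((θ n : 𝕜) * ((θ k : 𝕜) * h n (T (x k)))) =
      ((θ n * θ k : ℝ) : 𝕜) * (w * h n (T (x k))) by push_cast; ring]
    rw [RCLike.re_ofReal_mul]
  have h3 : RCLike.re (w * (∑ n ∈ F, (θ n : 𝕜) • h n) (T (∑ k ∈ F, (θ k : 𝕜) • x k))) ≤
      κ * m * ‖T‖ := by
    refine (RCLike.re_le_norm _).trans ?_
    rw [norm_mul, hw, one_mul]
    calc ‖(∑ n ∈ F, (θ n : 𝕜) • h n) (T (∑ k ∈ F, (θ k : 𝕜) • x k))‖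
        ≤ ‖∑ n ∈ F, (θ n : 𝕜) • h n‖ * (‖T‖ * ‖∑ k ∈ F, (θ k : 𝕜) • x k‖) :=
          (ContinuousLinearMap.le_opNorm _ _).trans
            (mul_le_mul_of_nonneg_left (T.le_opNorm _) (norm_nonneg _))
      _ = (‖∑ n ∈ F, (θ n : 𝕜) • x n‖ * ‖∑ n ∈ F, (θ n : 𝕜) • h n‖) * ‖T‖ := by ring
      _ ≤ κ * m * ‖T‖ := mul_le_mul_of_nonneg_right (hκ F hFc θ hθ) (norm_nonneg _)
  have h4 : (m : ℝ) * (‖L‖ - ε) ≤ m * (κ * ‖T‖) := by
    calc (m : ℝ) * (‖L‖ - ε) ≤ _ := h1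
      _ ≤ _ := hsum
      _ = _ := h2
      _ ≤ _ := h3
      _ = m * (κ * ‖T‖) := by ring
  have h5 : (0 : ℝ) < m := by exact_mod_cast hm
  have := le_of_mul_le_mul_left h4 h5
  linarith

theorem SignBound.norm_uFun_le_of_mem {m : ℕ} {κ : ℝ} (hκ : SignBound x h m κ) (hm : 0 < m)
    (hκ0 : 0 ≤ κ) (hU : IsSelective U)
    (Cx : ℝ) (hx : ∀ n, ‖x n‖ ≤ Cx) (Ch : ℝ) (hh : ∀ n, ‖h n‖ ≤ Ch) (r : ℝ)
    (S : Ultrapower 𝕜 E U →L[𝕜] Ultrapower 𝕜 E U) (hS : S ∈ wotClosureBdd 𝕜 E U r) :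
    ‖uFun U h Ch hh (S (umk (bseq x Cx hx)))‖ ≤ κ * r := by
  let K : Set (Ultrapower 𝕜 E U →WOT[𝕜] Ultrapower 𝕜 E U) :=
    {S | ‖uFun U h Ch hh (S (umk (bseq x Cx hx)))‖ ≤ κ * r}
  have hK : IsClosed K :=
    isClosed_le (ContinuousLinearMapWOT.continuous_dual_apply _ _).norm continuous_const
  have hsub : ((fun T : E →L[𝕜] E => ContinuousLinearMapWOT.ofCLM (ultraMap U T)) ''
      {T | ‖T‖ ≤ r}) ⊆ K := by
    rintro _ ⟨T, hT, rfl⟩
    exact (hκ.norm_uFun_le hm hU Cx hx Ch hh T).trans (mul_le_mul_of_nonneg_left hT hκ0)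
  exact closure_minimal hsub hK hS

end kappa

end Pool.Agent.Lib.MP_7518b9_an
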