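import Mathlib

/-!
# Ultrapowers of Banach spaces, and the weak operator closures of `{T^U}`

Definitions for problem MP_7518b9_an.
-/

open MeasureTheory Filter Topology Set
open scoped ENNReal BoundedContinuousFunction

namespace Pool.Agent.Lib.MP_7518b9_an

/-- `U` is a selective ultrafilter on `ℕ`: it is non-principal, and for every partition `P` of `ℕ`
into pieces none of which lies in `U`, some set in `U` meets each piece in at most one point. -/
def IsSelective (U : Ultrafilter ℕ) : Prop :=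
  (∀ n : ℕ, ({n} : Set ℕ) ∉ U) ∧
  ∀ P : Set (Set ℕ), Setoid.IsPartition P → (∀ s ∈ P, s ∉ U) →
    ∃ A ∈ U, ∀ s ∈ P, (A ∩ s).Subsingleton

section Ultrapower

variable (𝕜 : Type*) [RCLike 𝕜] (E : Type*) [NormedAddCommGroup E] [NormedSpace 𝕜 E]
  (U : Ultrafilter ℕ)

/-- The subspace of `ℓ^∞(E)` consisting of the bounded sequences `(x_n)` with
`lim_U ‖x_n‖ = 0`. Here `ℓ^∞(E)` is the space `ℕ →ᵇ E` of bounded sequences in `E` with the
supremum norm. -/
def nullSeq : Submodule 𝕜 (ℕ →ᵇ E) where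
  carrier := {x | Tendsto (fun n => ‖x n‖) U (𝓝 0)}
  zero_mem' := by simp
  add_mem' := by
    intro x y hx hy
    have h : Tendsto (fun n => ‖x n‖ + ‖y n‖) U (𝓝 0) := by simpa using hx.add hy
    exact squeeze_zero (fun n => norm_nonneg _) (fun n => norm_add_le _ _) h
  smul_mem' := by
    intro c x hx
    have h : Tendsto (fun n => ‖c‖ * ‖x n‖) U (𝓝 0) := by simpa using hx.const_mul ‖c‖
    exact squeeze_zero (fun n => norm_nonneg _) (fun n => by simp [norm_smul]) h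

variable {𝕜 E U} in
theorem mem_nullSeq {x : ℕ →ᵇ E} :
    x ∈ nullSeq 𝕜 E U ↔ Tendsto (fun n => ‖x n‖) U (𝓝 0) := Iff.rfl

instance isClosed_nullSeq : IsClosed (nullSeq 𝕜 E U : Set (ℕ →ᵇ E)) := by
  rw [← isSeqClosed_iff_isClosed]
  intro x y hx hxy
  show Tendsto (fun n => ‖y n‖) U (𝓝 0)
  rw [Metric.tendsto_nhds]
  intro ε hε
  have h1 : ∀ᶠ k in atTop, dist (x k) y < ε / 2 :=
    (Metric.tendsto_nhds.1 hxy) (ε / 2) (by positivity)
  obtain ⟨k, hk⟩ := h1.exists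
  have h2 : ∀ᶠ n in (U : Filter ℕ), dist ‖x k n‖ 0 < ε / 2 :=
    (Metric.tendsto_nhds.1 (hx k)) (ε / 2) (by positivity)
  filter_upwards [h2] with n hn
  rw [dist_zero_right, norm_norm] at hn ⊢
  have h3 : ‖y n - x k n‖ < ε / 2 := by
    rw [← dist_eq_norm]
    exact lt_of_le_of_lt (BoundedContinuousFunction.dist_coe_le_dist n) (by rwa [dist_comm])
  calc ‖y n‖ = ‖(y n - x k n) + x k n‖ := by rw [sub_add_cancel]
    _ ≤ ‖y n - x k n‖ + ‖x k n‖ := norm_add_le _ _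
    _ < ε := by linarith

/-- The ultrapower `E^U = ℓ^∞(E) / {(x_n) : lim_U ‖x_n‖ = 0}`. -/
def Ultrapower : Type _ := (ℕ →ᵇ E) ⧸ nullSeq 𝕜 E U

/-- The ultrapower carries the quotient norm. (By `tendsto_norm_umk` below the norm of the class of
`(x_n)` is `lim_U ‖x_n‖`.) -/
noncomputable instance instNormedAddCommGroupUltrapower :
    NormedAddCommGroup (Ultrapower 𝕜 E U) :=
  Submodule.Quotient.normedAddCommGroup (nullSeq 𝕜 E U)

/-- The ultrapower is a normed space over `𝕜`, as a quotient of `ℓ^∞(E)`. -/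
noncomputable instance instNormedSpaceUltrapower : NormedSpace 𝕜 (Ultrapower 𝕜 E U) :=
  Submodule.Quotient.normedSpace (nullSeq 𝕜 E U) 𝕜

instance instCompleteSpaceUltrapower [CompleteSpace E] : CompleteSpace (Ultrapower 𝕜 E U) :=
  inferInstanceAs (CompleteSpace ((ℕ →ᵇ E) ⧸ nullSeq 𝕜 E U))

variable {𝕜 E U}

/-- The class `(x_n)_U` in the ultrapower of a bounded sequence `(x_n)`. -/
noncomputable def umk (x : ℕ →ᵇ E) : Ultrapower 𝕜 E U := Submodule.Quotient.mk (p := nullSeq 𝕜 E U) x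

theorem umk_surjective (q : Ultrapower 𝕜 E U) : ∃ x : ℕ →ᵇ E, umk x = q :=
  Submodule.Quotient.mk_surjective (nullSeq 𝕜 E U) q

theorem umk_induction {P : Ultrapower 𝕜 E U → Prop} (q : Ultrapower 𝕜 E U)
    (H : ∀ x : ℕ →ᵇ E, P (umk x)) : P q := by
  obtain ⟨x, rfl⟩ := umk_surjective q
  exact H x

theorem umk_add (x y : ℕ →ᵇ E) : (umk (x + y) : Ultrapower 𝕜 E U) = umk x + umk y := rfl

theorem umk_sub (x y : ℕ →ᵇ E) : (umk (x - y) : Ultrapower 𝕜 E U) = umk x - umk y := rfl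

theorem umk_smul (c : 𝕜) (x : ℕ →ᵇ E) : (umk (c • x) : Ultrapower 𝕜 E U) = c • umk x := rfl

/-- If `‖x_n‖ ≤ c` for `U`-almost all `n` then the class of `(x_n)` has norm at most `c`. -/
theorem norm_umk_le_of_eventually {x : ℕ →ᵇ E} {c : ℝ} (hc : 0 ≤ c)
    (h : ∀ᶠ n in (U : Filter ℕ), ‖x n‖ ≤ c) :
    ‖(umk x : Ultrapower 𝕜 E U)‖ ≤ c := by
  classical
  let y : ℕ →ᵇ E := BoundedContinuousFunction.ofNormedAddCommGroup
    (fun n => if ‖x n‖ ≤ c then x n else 0) continuous_of_discreteTopology c (by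
      intro n
      split_ifs with h
      · exact h
      · simpa using hc)
  have hy : ∀ n, y n = if ‖x n‖ ≤ c then x n else 0 := fun n => rfl
  have hmem : x - y ∈ nullSeq 𝕜 E U := by
    rw [mem_nullSeq]
    apply tendsto_const_nhds.congr'
    filter_upwards [h] with n hn
    simp [hy, hn]
  have heq : (umk x : Ultrapower 𝕜 E U) = umk y := (Submodule.Quotient.eq _).2 hmem
  rw [heq]
  refine (Submodule.Quotient.norm_mk_le (nullSeq 𝕜 E U) y).trans ?_
  refine (BoundedContinuousFunction.norm_le hc).2 fun n => ?_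
  rw [hy]
  split_ifs with h
  · exact h
  · simpa using hc

/-- The norm of `E^U` is `lim_U ‖x_n‖`. -/
theorem tendsto_norm_umk (x : ℕ →ᵇ E) :
    Tendsto (fun n => ‖x n‖) U (𝓝 ‖(umk x : Ultrapower 𝕜 E U)‖) := by
  -- the limit exists by compactness
  have hcpt : IsCompact (Icc (0 : ℝ) ‖x‖) := isCompact_Icc
  obtain ⟨L, hL, hlim⟩ := hcpt.ultrafilter_le_nhds (U.map fun n => ‖x n‖) (by
    rw [Filter.le_principal_iff]
    exact Filter.mem_map.2 (Filter.univ_mem' fun n => ⟨norm_nonneg _, x.norm_coe_le_norm n⟩))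
  have hlim' : Tendsto (fun n => ‖x n‖) U (𝓝 L) := hlim
  have h1 : ‖(umk x : Ultrapower 𝕜 E U)‖ ≤ L := by
    refine le_of_forall_pos_le_add fun ε hε => ?_
    refine norm_umk_le_of_eventually (by linarith [hL.1]) ?_
    have := hlim'.eventually (gt_mem_nhds (show L < L + ε by linarith))
    filter_upwards [this] with n hn using hn.le
  have h2 : L ≤ ‖(umk x : Ultrapower 𝕜 E U)‖ := by
    refine le_of_forall_pos_le_add fun ε hε => ?_
    obtain ⟨y, hy, hyn⟩ := Submodule.Quotient.norm_mk_lt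
      (S := nullSeq 𝕜 E U) (umk x : Ultrapower 𝕜 E U) hε
    have hmem : x - y ∈ nullSeq 𝕜 E U := (Submodule.Quotient.eq _).1 hy.symm
    have h3 : Tendsto (fun n => ‖(x - y) n‖ + ‖y‖) U (𝓝 (0 + ‖y‖)) :=
      (mem_nullSeq.1 hmem).add_const _
    have h4 : L ≤ 0 + ‖y‖ := le_of_tendsto_of_tendsto' hlim' h3 fun n => by
      calc ‖x n‖ = ‖(x - y) n + y n‖ := by simp
        _ ≤ ‖(x - y) n‖ + ‖y n‖ := norm_add_le _ _
        _ ≤ ‖(x - y) n‖ + ‖y‖ := by gcongr; exact y.norm_coe_le_norm n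
    have h5 : ‖y‖ < ‖(umk x : Ultrapower 𝕜 E U)‖ + ε := hyn
    linarith
  rwa [le_antisymm h1 h2]

theorem nullSeq_le_comap (T : E →L[𝕜] E) :
    nullSeq 𝕜 E U ≤
      (nullSeq 𝕜 E U).comap (T.compLeftContinuousBounded ℕ : (ℕ →ᵇ E) →ₗ[𝕜] (ℕ →ᵇ E)) := by
  intro x hx
  have h : Tendsto (fun n => ‖T‖ * ‖x n‖) U (𝓝 0) := by
    simpa using (mem_nullSeq.1 hx).const_mul ‖T‖
  have h2 : Tendsto (fun n => ‖T (x n)‖) U (𝓝 0) :=
    squeeze_zero (fun n => norm_nonneg _) (fun n => T.le_opNorm _) h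
  exact h2

variable (U) in
/-- The ultrapower operator `T^U (x_n)_U = (T x_n)_U` as a linear map. -/
noncomputable def ultraLin (T : E →L[𝕜] E) : Ultrapower 𝕜 E U →ₗ[𝕜] Ultrapower 𝕜 E U :=
  Submodule.mapQ (nullSeq 𝕜 E U) (nullSeq 𝕜 E U)
    (T.compLeftContinuousBounded ℕ : (ℕ →ᵇ E) →ₗ[𝕜] (ℕ →ᵇ E)) (nullSeq_le_comap T)

theorem norm_ultraLin_le (T : E →L[𝕜] E) (q : Ultrapower 𝕜 E U) :
    ‖ultraLin U T q‖ ≤ ‖T‖ * ‖q‖ := by
  obtain ⟨x, rfl⟩ := umk_surjective q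
  have h1 := tendsto_norm_umk (𝕜 := 𝕜) (U := U) (T.compLeftContinuousBounded ℕ x)
  have h2 := (tendsto_norm_umk (𝕜 := 𝕜) (U := U) x).const_mul ‖T‖
  exact le_of_tendsto_of_tendsto' h1 h2 fun n => T.le_opNorm _

variable (U) in
/-- The ultrapower operator `T^U (x_n)_U = (T x_n)_U`. -/
noncomputable def ultraMap (T : E →L[𝕜] E) : Ultrapower 𝕜 E U →L[𝕜] Ultrapower 𝕜 E U :=
  (ultraLin U T).mkContinuous ‖T‖ (norm_ultraLin_le T)

@[simp] theorem ultraMap_umk (T : E →L[𝕜] E) (x : ℕ →ᵇ E) :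
    ultraMap U T (umk x) = umk (T.compLeftContinuousBounded ℕ x) := rfl

variable (𝕜 E U) in
/-- `𝒜`: the closure of `{T^U : T ∈ B(E)}` in the weak operator topology of `B(E^U)`. -/
def wotClosure : Set (Ultrapower 𝕜 E U →L[𝕜] Ultrapower 𝕜 E U) :=
  {S | ContinuousLinearMapWOT.ofCLM S ∈
    closure (range fun T : E →L[𝕜] E => ContinuousLinearMapWOT.ofCLM (ultraMap U T))}

variable (𝕜 E U) in
/-- `𝒜_r`: the closure of `{T^U : T ∈ B(E), ‖T‖ ≤ r}` in the weak operator topology of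
`B(E^U)`. -/
def wotClosureBdd (r : ℝ) : Set (Ultrapower 𝕜 E U →L[𝕜] Ultrapower 𝕜 E U) :=
  {S | ContinuousLinearMapWOT.ofCLM S ∈
    closure ((fun T : E →L[𝕜] E => ContinuousLinearMapWOT.ofCLM (ultraMap U T)) ''
      {T | ‖T‖ ≤ r})}

variable (𝕜 E U) in
/-- The property asked about in Q1 for the space `E`: every `S ∈ 𝒜` lies in some `𝒜_r`, `r > 0`. -/
def ExhaustedByBounded : Prop :=
  ∀ S ∈ wotClosure 𝕜 E U, ∃ r : ℝ, 0 < r ∧ S ∈ wotClosureBdd 𝕜 E U r

end Ultrapower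

/-- `L^p[0,1]` with Lebesgue measure and scalar field `𝕜`. -/
abbrev LpI (𝕜 : Type*) [RCLike 𝕜] (p : ℝ≥0∞) : Type _ :=
  Lp 𝕜 p (volume : Measure unitInterval)

end Pool.Agent.Lib.MP_7518b9_an
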