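import Pool.Agent.Lib.MP_7518b9_an.LpPart

/-!
# The final data on `L^p[0,1]`
-/

open Filter Topology Set MeasureTheory ProbabilityTheory
open scoped ENNReal unitInterval

namespace Pool.Agent.Lib.MP_7518b9_an

variable {𝕜 : Type*} [RCLike 𝕜]

theorem good_card_sum_le {b : ℕ → I → ℝ} (hb : Good 1 b) (F : Finset ℕ) (θ : ℕ → ℝ)
    (hθ : ∀ n, θ n = 1 ∨ θ n = -1) {e : ℝ≥0∞} (he0 : e ≠ 0) (het : e ≠ ∞) :
    ‖∑ n ∈ F, (θ n : 𝕜) • hb.bL 𝕜 e n‖ ≤ Kc e.toReal (Real.exp (1 / 2)) * √(F.card) := by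
  refine (hb.norm_sum_real_le F θ he0 het).trans (le_of_eq ?_)
  congr 2
  have : ∀ n ∈ F, θ n ^ 2 = 1 := fun n _ => by rcases hθ n with h | h <;> rw [h] <;> norm_num
  rw [Finset.sum_congr rfl this]
  simp

/-- The factor `P * K * (norm of b_n in L^s)⁻¹ * √M / M` tends to zero for `s > 2`. -/
theorem exists_M (A : ℝ) (s : ℝ) (hs : 2 < s) (κ : ℝ) (hκ : 0 < κ) :
    ∃ M : ℕ, 0 < M ∧ A * ((1 / (M : ℝ)) ^ (1 / s))⁻¹ * √M / M ≤ κ := by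
  have hδ : 0 < 1 / 2 - 1 / s := by
    have : 1 / s < 1 / 2 := one_div_lt_one_div_of_lt two_pos hs
    linarith
  have h1 : Tendsto (fun M : ℕ => A * (M : ℝ) ^ (-(1 / 2 - 1 / s))) atTop (𝓝 (A * 0)) :=
    ((tendsto_rpow_neg_atTop hδ).comp tendsto_natCast_atTop_atTop).const_mul A
  rw [mul_zero] at h1
  obtain ⟨M, hM1, hM2⟩ := ((h1.eventually (gt_mem_nhds hκ)).and (eventually_gt_atTop 0)).exists
  refine ⟨M, hM2, ?_⟩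
  have hM : (0 : ℝ) < M := by exact_mod_cast hM2
  have h2 : A * ((1 / (M : ℝ)) ^ (1 / s))⁻¹ * √M / M = A * (M : ℝ) ^ (-(1 / 2 - 1 / s)) := by
    rw [one_div, Real.inv_rpow hM.le, inv_inv, Real.sqrt_eq_rpow, mul_assoc, mul_div_assoc]
    congr 1
    rw [← Real.rpow_add hM, div_eq_iff hM.ne']
    nth_rewrite 3 [← Real.rpow_one (M : ℝ)]
    rw [← Real.rpow_add hM]
    congr 1
    ring
  rw [h2]
  exact hM1.le

section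

variable {p q : ℝ≥0∞} [Fact (1 ≤ p)] [Fact (1 ≤ q)] [ENNReal.HolderConjugate q p]

omit [Fact (1 ≤ p)] [Fact (1 ≤ q)] in
theorem mul_norms (hp0 : p ≠ 0) (hq0 : q ≠ 0) {x : ℝ} (hx : 0 < x) :
    x ^ (1 / p.toReal) * x ^ (1 / q.toReal) = x := by
  have h1 : q⁻¹ + p⁻¹ = 1 := ENNReal.HolderConjugate.inv_add_inv_eq_one q p
  have h2 : 1 / p.toReal + 1 / q.toReal = 1 := by
    have h3 := congrArg ENNReal.toReal h1
    rw [ENNReal.toReal_add (ENNReal.inv_ne_top.2 hq0) (ENNReal.inv_ne_top.2 hp0),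
      ENNReal.toReal_inv, ENNReal.toReal_inv, ENNReal.toReal_one] at h3
    rw [one_div, one_div]
    linarith
  rw [← Real.rpow_add hx, h2, Real.rpow_one]

theorem smul_family_upper {e : ℝ≥0∞} [Fact (1 ≤ e)] (u : ℕ → LpI 𝕜 e) (C c : ℝ)
    (hu : ∀ (F : Finset ℕ) (a : ℕ → 𝕜), ‖∑ n ∈ F, a n • u n‖ ^ 2 ≤ C * ∑ n ∈ F, ‖a n‖ ^ 2)
    (F : Finset ℕ) (a : ℕ → 𝕜) :
    ‖∑ n ∈ F, a n • ((c : 𝕜) • u n)‖ ^ 2 ≤ (c ^ 2 * C) * ∑ n ∈ F, ‖a n‖ ^ 2 := by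
  have h1 : ∑ n ∈ F, a n • ((c : 𝕜) • u n) = (c : 𝕜) • ∑ n ∈ F, a n • u n := by
    rw [Finset.smul_sum]
    exact Finset.sum_congr rfl fun n _ => smul_comm _ _ _
  rw [h1, norm_smul, RCLike.norm_ofReal, mul_pow, sq_abs, mul_assoc]
  exact mul_le_mul_of_nonneg_left (hu F a) (sq_nonneg c)

theorem data_of (v : ℕ → LpI 𝕜 p) (f : ℕ → LpI 𝕜 q) (C₁ C₂ : ℝ) (h₁ : 0 ≤ C₁) (h₂ : 0 ≤ C₂)
    (hv : ∀ (F : Finset ℕ) (a : ℕ → 𝕜), ‖∑ n ∈ F, a n • v n‖ ^ 2 ≤ C₁ * ∑ n ∈ F, ‖a n‖ ^ 2)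
    (hf : ∀ (F : Finset ℕ) (a : ℕ → 𝕜), ‖∑ n ∈ F, a n • f n‖ ^ 2 ≤ C₂ * ∑ n ∈ F, ‖a n‖ ^ 2) :
    Data v (fun n => (pair (f n) : LpI 𝕜 p →L[𝕜] 𝕜)) (C₁ + C₂ + 1) where
  pos := by positivity
  upper := fun F a => (hv F a).trans
    (mul_le_mul_of_nonneg_right (by linarith) (Finset.sum_nonneg fun n _ => by positivity))
  lower := fun F z => (sum_norm_pair_sq_le f C₂ h₂ hf F z).trans
    (mul_le_mul_of_nonneg_right (by linarith) (by positivity))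

theorem signBound_of (x : ℕ → LpI 𝕜 p) (f : ℕ → LpI 𝕜 q) (m : ℕ) (X Y κ : ℝ)
    (hX : ∀ (F : Finset ℕ), F.card = m → ∀ θ : ℕ → ℝ, (∀ n, θ n = 1 ∨ θ n = -1) →
      ‖∑ n ∈ F, (θ n : 𝕜) • x n‖ ≤ X)
    (hY : ∀ (F : Finset ℕ), F.card = m → ∀ θ : ℕ → ℝ, (∀ n, θ n = 1 ∨ θ n = -1) →
      ‖∑ n ∈ F, (θ n : 𝕜) • f n‖ ≤ Y)
    (hκ : X * Y ≤ κ * m) :
    SignBound x (fun n => (pair (f n) : LpI 𝕜 p →L[𝕜] 𝕜)) m κ := by
  intro F hF θ hθ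
  have h1 := hX F hF θ hθ
  have h2 : ‖∑ n ∈ F, (θ n : 𝕜) • (pair (f n) : LpI 𝕜 p →L[𝕜] 𝕜)‖ ≤ Y := by
    have h3 := pair_sum (p := p) F (fun n => (θ n : 𝕜)) f
    rw [← h3]
    exact (norm_pair_le _).trans (hY F hF θ hθ)
  calc _ ≤ X * Y := mul_le_mul h1 h2 (norm_nonneg _) ((norm_nonneg _).trans h1)
    _ ≤ κ * m := hκ

theorem pair_smul_smul (c d : ℝ) (f : LpI 𝕜 q) (z : LpI 𝕜 p) :
    pair ((c : 𝕜) • f) ((d : 𝕜) • z) = ((c * d : ℝ) : 𝕜) * pair f z := by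
  have h1 : (pair ((c : 𝕜) • f) : LpI 𝕜 p →L[𝕜] 𝕜) = (c : 𝕜) • pair f := by
    unfold pair
    rw [map_smul]
  rw [h1, map_smul]
  show (d : 𝕜) * ((c : 𝕜) * pair f z) = _
  push_cast
  ring

theorem norm_smul_bL {M : ℕ} {b : ℕ → I → ℝ} (hb : Good M b) {e : ℝ≥0∞} [Fact (1 ≤ e)]
    (he0 : e ≠ 0) (het : e ≠ ∞) (n : ℕ) :
    ‖(((((1 / (M : ℝ)) ^ (1 / e.toReal))⁻¹ : ℝ)) : 𝕜) • hb.bL 𝕜 e n‖ = 1 := by
  have hM : (0 : ℝ) < M := by exact_mod_cast hb.pos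
  have hpos : (0 : ℝ) < (1 / (M : ℝ)) ^ (1 / e.toReal) := by positivity
  rw [norm_smul, RCLike.norm_ofReal, hb.norm_bL he0 het, abs_of_pos (inv_pos.2 hpos),
    inv_mul_cancel₀ hpos.ne']

theorem norm_sum_smul_bL {M : ℕ} {b : ℕ → I → ℝ} (hb : Good M b) {e : ℝ≥0∞} [Fact (1 ≤ e)]
    (he0 : e ≠ 0) (het : e ≠ ∞) (F : Finset ℕ) (hF : F.card = M) (θ : ℕ → ℝ)
    (hθ : ∀ n, θ n = 1 ∨ θ n = -1) (c : ℝ) (hc : 0 ≤ c) :
    ‖∑ n ∈ F, (θ n : 𝕜) • ((c : 𝕜) • hb.bL 𝕜 e n)‖ ≤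
      c * Kc e.toReal (Real.exp (Real.cosh 1 - 1)) := by
  have h1 : ∑ n ∈ F, (θ n : 𝕜) • ((c : 𝕜) • hb.bL 𝕜 e n) =
      (c : 𝕜) • ∑ n ∈ F, (θ n : 𝕜) • hb.bL 𝕜 e n := by
    rw [Finset.smul_sum]
    exact Finset.sum_congr rfl fun n _ => smul_comm _ _ _
  rw [h1, norm_smul, RCLike.norm_ofReal, abs_of_nonneg hc]
  exact mul_le_mul_of_nonneg_left (hb.norm_sum_le_of_card F hF θ hθ he0 het) hc

theorem norm_bL_one {b : ℕ → I → ℝ} (hb : Good 1 b) {e : ℝ≥0∞} [Fact (1 ≤ e)]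
    (he0 : e ≠ 0) (het : e ≠ ∞) (n : ℕ) : ‖hb.bL 𝕜 e n‖ = 1 := by
  rw [hb.norm_bL he0 het]
  simp

/-- The case `p > 2`. -/
theorem data_gt_two (hpt : p ≠ ∞) (hqt : q ≠ ∞) (hp2 : 2 < p) (κ : ℝ) (hκ : 0 < κ) :
    ∃ (v x : ℕ → LpI 𝕜 p) (g h : ℕ → LpI 𝕜 p →L[𝕜] 𝕜) (C Cx Ch κ' : ℝ) (m : ℕ),
      0 < m ∧ 0 < κ' ∧ κ' ≤ κ ∧ Data v g C ∧ SignBound x h m κ' ∧
      (∀ n, ‖v n‖ ≤ 1) ∧ (∀ n, ‖g n‖ ≤ 1) ∧ (∀ n, ‖x n‖ ≤ Cx) ∧ (∀ n, ‖h n‖ ≤ Ch) ∧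
      (∀ n, g n (x n) = 1) ∧ (∀ n, h n (v n) = 1) := by
  have hp0 : p ≠ 0 := ENNReal.HolderConjugate.ne_zero p q
  have hq0 : q ≠ 0 := ENNReal.HolderConjugate.ne_zero q p
  have hs : 2 < p.toReal := by
    have := (ENNReal.toReal_lt_toReal (by simp) hpt).2 hp2
    simpa using this
  set K := Kc q.toReal (Real.exp (1 / 2)) with hK
  set P := Kc p.toReal (Real.exp (Real.cosh 1 - 1)) with hP
  have hKpos : 0 < K := Kc_pos (ENNReal.toReal_pos hq0 hqt) (Real.exp_pos _)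
  have hPpos : 0 < P := Kc_pos (ENNReal.toReal_pos hp0 hpt) (Real.exp_pos _)
  obtain ⟨M, hM0, hM⟩ := exists_M (P * K) p.toReal hs κ hκ
  have hM' : (0 : ℝ) < M := by exact_mod_cast hM0
  obtain ⟨r, hr⟩ := exists_good one_pos
  obtain ⟨b, hb⟩ := exists_good hM0
  set α := (1 / (M : ℝ)) ^ (1 / p.toReal) with hα
  set β := (1 / (M : ℝ)) ^ (1 / q.toReal) with hβ
  have hαpos : 0 < α := by positivity
  have hβpos : 0 < β := by positivity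
  have hαβ : α * β = 1 / M := mul_norms hp0 hq0 (by positivity)
  refine ⟨fun n => hr.bL 𝕜 p n, fun n => ((α⁻¹ : ℝ) : 𝕜) • hb.bL 𝕜 p n,
    fun n => pair (((β⁻¹ : ℝ) : 𝕜) • hb.bL 𝕜 q n), fun n => pair (hr.bL 𝕜 q n),
    _, 1, 1, P * K * α⁻¹ * √M / M, M, hM0, by positivity, hM,
    data_of _ _ _ _ (by positivity) (by positivity)
      (fun F a => hr.norm_sum_sq_le F a hp0 hpt)
      (smul_family_upper _ _ _ fun F a => hb.norm_sum_sq_le F a hq0 hqt),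
    signBound_of _ _ M (α⁻¹ * P) (K * √M) _ ?_ ?_ ?_, ?_, ?_, ?_, ?_, ?_, ?_⟩
  · intro F hF θ hθ
    exact norm_sum_smul_bL hb hp0 hpt F hF θ hθ _ (by positivity)
  · intro F hF θ hθ
    have := good_card_sum_le (𝕜 := 𝕜) hr F θ hθ hq0 hqt
    rwa [hF] at this
  · rw [div_mul_cancel₀ _ hM'.ne']
    exact le_of_eq (by ring)
  · intro n
    exact (norm_bL_one hr hp0 hpt n).le
  · intro n
    exact (norm_pair_le _).trans (norm_smul_bL hb hq0 hqt n).le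
  · intro n
    exact (norm_smul_bL hb hp0 hpt n).le
  · intro n
    exact (norm_pair_le _).trans (norm_bL_one hr hq0 hqt n).le
  · intro n
    have h1 : β⁻¹ * α⁻¹ * (1 / (M : ℝ)) = 1 := by rw [← hαβ]; field_simp
    rw [pair_smul_smul, hb.pair_bL, ← RCLike.ofReal_mul, h1, RCLike.ofReal_one]
  · intro n
    rw [hr.pair_bL]
    simp

/-- The case `p < 2`. -/
theorem data_lt_two (hpt : p ≠ ∞) (hqt : q ≠ ∞) (hq2 : 2 < q) (κ : ℝ) (hκ : 0 < κ) :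
    ∃ (v x : ℕ → LpI 𝕜 p) (g h : ℕ → LpI 𝕜 p →L[𝕜] 𝕜) (C Cx Ch κ' : ℝ) (m : ℕ),
      0 < m ∧ 0 < κ' ∧ κ' ≤ κ ∧ Data v g C ∧ SignBound x h m κ' ∧
      (∀ n, ‖v n‖ ≤ 1) ∧ (∀ n, ‖g n‖ ≤ 1) ∧ (∀ n, ‖x n‖ ≤ Cx) ∧ (∀ n, ‖h n‖ ≤ Ch) ∧
      (∀ n, g n (x n) = 1) ∧ (∀ n, h n (v n) = 1) := by
  have hp0 : p ≠ 0 := ENNReal.HolderConjugate.ne_zero p q
  have hq0 : q ≠ 0 := ENNReal.HolderConjugate.ne_zero q p
  have hs : 2 < q.toReal := by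
    have := (ENNReal.toReal_lt_toReal (by simp) hqt).2 hq2
    simpa using this
  set K := Kc p.toReal (Real.exp (1 / 2)) with hK
  set P := Kc q.toReal (Real.exp (Real.cosh 1 - 1)) with hP
  have hKpos : 0 < K := Kc_pos (ENNReal.toReal_pos hp0 hpt) (Real.exp_pos _)
  have hPpos : 0 < P := Kc_pos (ENNReal.toReal_pos hq0 hqt) (Real.exp_pos _)
  obtain ⟨M, hM0, hM⟩ := exists_M (P * K) q.toReal hs κ hκ
  have hM' : (0 : ℝ) < M := by exact_mod_cast hM0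
  obtain ⟨r, hr⟩ := exists_good one_pos
  obtain ⟨b, hb⟩ := exists_good hM0
  set α := (1 / (M : ℝ)) ^ (1 / p.toReal) with hα
  set β := (1 / (M : ℝ)) ^ (1 / q.toReal) with hβ
  have hαpos : 0 < α := by positivity
  have hβpos : 0 < β := by positivity
  have hαβ : α * β = 1 / M := mul_norms hp0 hq0 (by positivity)
  refine ⟨fun n => ((α⁻¹ : ℝ) : 𝕜) • hb.bL 𝕜 p n, fun n => hr.bL 𝕜 p n,
    fun n => pair (hr.bL 𝕜 q n), fun n => pair (((β⁻¹ : ℝ) : 𝕜) • hb.bL 𝕜 q n),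
    _, 1, 1, P * K * β⁻¹ * √M / M, M, hM0, by positivity, hM,
    data_of _ _ _ _ (by positivity) (by positivity)
      (smul_family_upper _ _ _ fun F a => hb.norm_sum_sq_le F a hp0 hpt)
      (fun F a => hr.norm_sum_sq_le F a hq0 hqt),
    signBound_of _ _ M (K * √M) (β⁻¹ * P) _ ?_ ?_ ?_, ?_, ?_, ?_, ?_, ?_, ?_⟩
  · intro F hF θ hθ
    have := good_card_sum_le (𝕜 := 𝕜) hr F θ hθ hp0 hpt
    rwa [hF] at this
  · intro F hF θ hθ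
    exact norm_sum_smul_bL hb hq0 hqt F hF θ hθ _ (by positivity)
  · rw [div_mul_cancel₀ _ hM'.ne']
    exact le_of_eq (by ring)
  · intro n
    exact (norm_smul_bL hb hp0 hpt n).le
  · intro n
    exact (norm_pair_le _).trans (norm_bL_one hr hq0 hqt n).le
  · intro n
    exact (norm_bL_one hr hp0 hpt n).le
  · intro n
    exact (norm_pair_le _).trans (norm_smul_bL hb hq0 hqt n).le
  · intro n
    rw [hr.pair_bL]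
    simp
  · intro n
    have h1 : β⁻¹ * α⁻¹ * (1 / (M : ℝ)) = 1 := by rw [← hαβ]; field_simp
    rw [pair_smul_smul, hb.pair_bL, ← RCLike.ofReal_mul, h1, RCLike.ofReal_one]

end

theorem main (𝕜 : Type*) [RCLike 𝕜] (p : ℝ≥0∞) [Fact (1 ≤ p)] (hp1 : 1 < p) (hpt : p ≠ ∞)
    (hp2 : p ≠ 2) (U : Ultrafilter ℕ) (hU : IsSelective U) :
    ∃ S ∈ wotClosure 𝕜 (LpI 𝕜 p) U, ∀ r : ℝ, 0 < r → S ∉ wotClosureBdd 𝕜 (LpI 𝕜 p) U r := by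
  set q := ENNReal.conjExponent p with hq
  have hconj : ENNReal.HolderConjugate p q := .conjExponent hp1.le
  have : ENNReal.HolderConjugate q p := hconj.symm
  have hq1 : 1 ≤ q := ENNReal.HolderConjugate.one_le q p
  have : Fact (1 ≤ q) := ⟨hq1⟩
  have hqt : q ≠ ∞ := (ENNReal.HolderConjugate.ne_top_iff_ne_one q p).2 hp1.ne'
  refine main_abstract hU fun κ hκ => ?_
  rcases lt_or_gt_of_ne hp2 with h | h
  · have hq2 : 2 < q := by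
      have h1 : p⁻¹ + q⁻¹ = 1 := ENNReal.HolderConjugate.inv_add_inv_eq_one p q
      by_contra hcon
      rw [not_lt] at hcon
      have h2 : (2 : ℝ≥0∞)⁻¹ < p⁻¹ := ENNReal.inv_lt_inv.2 h
      have h3 : (2 : ℝ≥0∞)⁻¹ ≤ q⁻¹ := ENNReal.inv_le_inv.2 hcon
      have h4 : (2 : ℝ≥0∞)⁻¹ + 2⁻¹ < p⁻¹ + q⁻¹ := by
        calc (2 : ℝ≥0∞)⁻¹ + 2⁻¹ < p⁻¹ + 2⁻¹ := ENNReal.add_lt_add_right (by simp) h2
          _ ≤ p⁻¹ + q⁻¹ := by gcongr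
      rw [h1, ENNReal.inv_two_add_inv_two] at h4
      exact lt_irrefl _ h4
    exact data_lt_two hpt hqt hq2 κ hκ
  · exact data_gt_two hpt hqt h κ hκ

end Pool.Agent.Lib.MP_7518b9_an
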