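import Pool.Agent.Lib.MP_7518b9_an.Closure

/-!
# The Banach-Steinhaus argument
-/

open Filter Topology Set
open scoped BoundedContinuousFunction

namespace Pool.Agent.Lib.MP_7518b9_an

section generic

variable {𝕜 : Type*} [RCLike 𝕜]

/-- The uniform boundedness principle on a closed subspace. -/
theorem uniform_bound {X : Type*} [NormedAddCommGroup X] [NormedSpace 𝕜 X] [CompleteSpace X]
    (W : Submodule 𝕜 X) (hW : IsClosed (W : Set X)) (Λ : ℕ → X →L[𝕜] 𝕜)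
    (hΛ : ∀ x ∈ W, ∃ C, ∀ j, ‖Λ j x‖ ≤ C) : ∃ C, ∀ j, ∀ x ∈ W, ‖Λ j x‖ ≤ C * ‖x‖ := by
  have : CompleteSpace W := hW.completeSpace_coe
  obtain ⟨C, hC⟩ := banach_steinhaus (g := fun j => (Λ j) ∘L W.subtypeL) (fun x => hΛ x x.2)
  refine ⟨C, fun j x hx => ?_⟩
  exact (((Λ j) ∘L W.subtypeL).le_opNorm ⟨x, hx⟩).trans
    (mul_le_mul_of_nonneg_right (hC j) (norm_nonneg _))

/-- If the sets `Bdd r` obey bounds which elements `S` of norm at most one in the WOT closure of a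
subspace `R` break by an arbitrarily large factor, then they do not exhaust this closure. -/
theorem exists_notMem_of_bounds {X : Type*} [NormedAddCommGroup X] [NormedSpace 𝕜 X]
    [CompleteSpace X] (R : Submodule 𝕜 (X →WOT[𝕜] X)) (Bdd : ℝ → Set (X →L[𝕜] X))
    (H : ∀ κ > (0 : ℝ), ∃ (S : X →L[𝕜] X) (y : X) (Φ : X →L[𝕜] 𝕜) (κ' : ℝ), 0 < κ' ∧ κ' ≤ κ ∧
      ContinuousLinearMapWOT.ofCLM S ∈ closure (R : Set (X →WOT[𝕜] X)) ∧ ‖S‖ ≤ 1 ∧ Φ (S y) = 1 ∧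
      ∀ r, ∀ S' ∈ Bdd r, ‖Φ (S' y)‖ ≤ κ' * r) :
    ∃ S : X →L[𝕜] X, ContinuousLinearMapWOT.ofCLM S ∈ closure (R : Set (X →WOT[𝕜] X)) ∧
      ∀ r : ℝ, 0 < r → S ∉ Bdd r := by
  by_contra hcon
  push Not at hcon
  have H' := fun j : ℕ => H (1 / ((j : ℝ) + 1)) (by positivity)
  choose S y Φ κ hκ0 hκ hS hS1 hΦ hB using H'
  let Λ : ℕ → (X →L[𝕜] X) →L[𝕜] 𝕜 := fun j =>
    ((κ j : 𝕜)⁻¹) • (Φ j ∘L (ContinuousLinearMap.apply 𝕜 X (y j)))
  have hΛ : ∀ j (S : X →L[𝕜] X), ‖Λ j S‖ = (κ j)⁻¹ * ‖Φ j (S (y j))‖ := by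
    intro j S
    show ‖((κ j : 𝕜)⁻¹) • (Φ j (S (y j)))‖ = _
    rw [norm_smul, norm_inv, RCLike.norm_ofReal, abs_of_pos (hκ0 j)]
  let W : Submodule 𝕜 (X →L[𝕜] X) :=
    { carrier := {S | ContinuousLinearMapWOT.ofCLM S ∈ closure (R : Set (X →WOT[𝕜] X))}
      zero_mem' := R.topologicalClosure.zero_mem
      add_mem' := fun hS hT => R.topologicalClosure.add_mem hS hT
      smul_mem' := fun c _ hS => R.topologicalClosure.smul_mem c hS }
  have hWc : IsClosed (W : Set (X →L[𝕜] X)) :=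
    isClosed_closure.preimage ContinuousLinearMapWOT.continuous_ofCLM
  obtain ⟨C', hC'⟩ := uniform_bound W hWc Λ (by
    intro S hS
    obtain ⟨r, hr, hSr⟩ := hcon S hS
    refine ⟨r, fun j => ?_⟩
    rw [hΛ, inv_mul_le_iff₀ (hκ0 j)]
    exact hB j r S hSr)
  obtain ⟨j, hj⟩ := exists_nat_gt (max C' 0)
  have h1 : ‖Λ j (S j)‖ = (κ j)⁻¹ := by
    rw [hΛ, hΦ, norm_one, mul_one]
  have h4 : (κ j)⁻¹ ≤ max C' 0 := by
    rw [← h1]
    refine (hC' j _ (hS j)).trans ?_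
    calc C' * ‖S j‖ ≤ max C' 0 * ‖S j‖ :=
          mul_le_mul_of_nonneg_right (le_max_left _ _) (norm_nonneg _)
      _ ≤ max C' 0 * 1 := mul_le_mul_of_nonneg_left (hS1 j) (le_max_right _ _)
      _ = max C' 0 := mul_one _
  have h5 : (j : ℝ) + 1 ≤ (κ j)⁻¹ := by
    rw [le_inv_comm₀ (by positivity) (hκ0 j)]
    simpa using hκ j
  linarith

end generic

variable {𝕜 : Type*} [RCLike 𝕜] {E : Type*} [NormedAddCommGroup E] [NormedSpace 𝕜 E]
  {U : Ultrafilter ℕ}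

variable (𝕜 E U) in
/-- `{T^U}` as a subspace in the weak operator topology. -/
noncomputable def rangeSub : Submodule 𝕜 (Ultrapower 𝕜 E U →WOT[𝕜] Ultrapower 𝕜 E U) where
  carrier := range fun T : E →L[𝕜] E => ContinuousLinearMapWOT.ofCLM (ultraMap U T)
  zero_mem' := by
    refine ⟨0, ?_⟩
    apply ContinuousLinearMapWOT.ext
    intro q
    induction q using umk_induction with
    | H x =>
      rw [ContinuousLinearMapWOT.ofCLM_apply, ultraMap_umk]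
      rfl
  add_mem' := by
    rintro _ _ ⟨S, rfl⟩ ⟨T, rfl⟩
    refine ⟨S + T, ?_⟩
    apply ContinuousLinearMapWOT.ext
    intro q
    induction q using umk_induction with
    | H x =>
      rw [ContinuousLinearMapWOT.add_apply, ContinuousLinearMapWOT.ofCLM_apply,
        ContinuousLinearMapWOT.ofCLM_apply, ContinuousLinearMapWOT.ofCLM_apply,
        ultraMap_umk, ultraMap_umk, ultraMap_umk, ← umk_add]
      rfl
  smul_mem' := by
    rintro c _ ⟨T, rfl⟩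
    refine ⟨c • T, ?_⟩
    apply ContinuousLinearMapWOT.ext
    intro q
    induction q using umk_induction with
    | H x =>
      rw [ContinuousLinearMapWOT.smul_apply, ContinuousLinearMapWOT.ofCLM_apply,
        ContinuousLinearMapWOT.ofCLM_apply, ultraMap_umk, ultraMap_umk, ← umk_smul]
      rfl

theorem main_abstract [CompleteSpace E] (hU : IsSelective U)
    (H : ∀ κ > (0 : ℝ), ∃ (v x : ℕ → E) (g h : ℕ → E →L[𝕜] 𝕜) (C Cx Ch κ' : ℝ) (m : ℕ),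
      0 < m ∧ 0 < κ' ∧ κ' ≤ κ ∧ Data v g C ∧ SignBound x h m κ' ∧
      (∀ n, ‖v n‖ ≤ 1) ∧ (∀ n, ‖g n‖ ≤ 1) ∧ (∀ n, ‖x n‖ ≤ Cx) ∧ (∀ n, ‖h n‖ ≤ Ch) ∧
      (∀ n, g n (x n) = 1) ∧ (∀ n, h n (v n) = 1)) :
    ∃ S ∈ wotClosure 𝕜 E U, ∀ r : ℝ, 0 < r → S ∉ wotClosureBdd 𝕜 E U r := by
  refine exists_notMem_of_bounds (X := Ultrapower 𝕜 E U) (rangeSub 𝕜 E U)
    (wotClosureBdd 𝕜 E U) ?_
  intro κ₀ hκ₀
  obtain ⟨v, x, g, h, C, Cx, Ch, κ, m, hm, hκ0, hκ, hD, hSB, hv, hg, hx, hh, hgx, hhv⟩ := H κ₀ hκ₀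
  refine ⟨rankOne U v g 1 hv 1 hg, umk (bseq x Cx hx), uFun U h Ch hh, κ,
    hκ0, hκ, rankOne_mem_wotClosure hU hD 1 hv 1 hg, ?_, ?_, ?_⟩
  · have := norm_rankOne_le (U := U) (v := v) (g := g) 1 zero_le_one hv 1 zero_le_one hg
    rwa [one_mul] at this
  · have h2 : rankOne U v g 1 hv 1 hg (umk (bseq x Cx hx)) =
        umk (bseq v 1 hv) := by
      rw [rankOne_apply]
      have h3 : uFun U g 1 hg (umk (bseq x Cx hx)) = 1 := by
        refine tendsto_nhds_unique (tendsto_uFun g 1 hg _) ?_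
        refine tendsto_const_nhds.congr fun n => ?_
        rw [bseq_apply, hgx]
      rw [h3, one_smul]
    rw [h2]
    refine tendsto_nhds_unique (tendsto_uFun h Ch hh _) ?_
    refine tendsto_const_nhds.congr fun n => ?_
    rw [bseq_apply, hhv]
  · intro r S' hS'
    exact hSB.norm_uFun_le_of_mem hm hκ0.le hU Cx hx Ch hh r S' hS'

end Pool.Agent.Lib.MP_7518b9_an
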