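import Pool.Agent.Lib.MP_7518b9_an.Prob
import Pool.Agent.Lib.MP_7518b9_an.Main

/-!
# The functions as elements of `L^p`, the pairing, and the final data
-/

open Filter Topology Set MeasureTheory ProbabilityTheory
open scoped ENNReal unitInterval

namespace Pool.Agent.Lib.MP_7518b9_an

variable {𝕜 : Type*} [RCLike 𝕜]

/-- Real functions as elements of the `𝕜`-valued `L^e`. -/
noncomputable def toLp𝕜 (𝕜 : Type*) [RCLike 𝕜] {f : I → ℝ} {e : ℝ≥0∞}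
    (hf : MemLp f e (volume : Measure I)) : LpI 𝕜 e :=
  (hf.ofReal (K := 𝕜)).toLp (fun ω => ((f ω : ℝ) : 𝕜))

theorem norm_toLp𝕜 {f : I → ℝ} {e : ℝ≥0∞} (hf : MemLp f e (volume : Measure I)) :
    ‖toLp𝕜 𝕜 hf‖ = (eLpNorm f e (volume : Measure I)).toReal := by
  rw [toLp𝕜, Lp.norm_toLp]
  congr 1
  refine eLpNorm_congr_norm_ae (Filter.Eventually.of_forall fun ω => ?_)
  simp

namespace Good

variable {M : ℕ} {b : ℕ → I → ℝ}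

/-- `b_n` as an element of `L^e`. -/
noncomputable def bL (𝕜 : Type*) [RCLike 𝕜] (hb : Good M b) (e : ℝ≥0∞) (n : ℕ) : LpI 𝕜 e :=
  toLp𝕜 𝕜 (hb.memLp n e)

theorem norm_bL (hb : Good M b) {e : ℝ≥0∞} (he0 : e ≠ 0) (het : e ≠ ∞) (n : ℕ) :
    ‖hb.bL 𝕜 e n‖ = (1 / (M : ℝ)) ^ (1 / e.toReal) := by
  rw [bL, norm_toLp𝕜, hb.eLpNorm_eq n he0 het, ENNReal.toReal_ofReal (by positivity)]

theorem memLp_sum (hb : Good M b) (F : Finset ℕ) (a : ℕ → ℝ) (e : ℝ≥0∞) :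
    MemLp (fun ω => ∑ n ∈ F, a n * b n ω) e (volume : Measure I) := by
  classical
  induction F using Finset.induction_on with
  | empty => simp
  | @insert j F hj ih =>
    simp_rw [Finset.sum_insert hj]
    exact ((hb.memLp j e).const_mul (a j)).add ih

theorem sum_bL (hb : Good M b) (F : Finset ℕ) (a : ℕ → ℝ) (e : ℝ≥0∞) :
    ∑ n ∈ F, (a n : 𝕜) • hb.bL 𝕜 e n = toLp𝕜 𝕜 (hb.memLp_sum F a e) := by
  classical
  induction F using Finset.induction_on with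
  | empty =>
    rw [Finset.sum_empty]
    symm
    rw [Lp.eq_zero_iff_ae_eq_zero]
    filter_upwards [MemLp.coeFn_toLp ((hb.memLp_sum ∅ a e).ofReal (K := 𝕜))] with ω hω
    rw [toLp𝕜, hω]
    simp
  | @insert j F hj ih =>
    rw [Finset.sum_insert hj, ih, bL, toLp𝕜, toLp𝕜, toLp𝕜, ← MemLp.toLp_const_smul,
      ← MemLp.toLp_add]
    refine MemLp.toLp_congr _ _ (Filter.Eventually.of_forall fun ω => ?_)
    simp [Finset.sum_insert hj]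

theorem norm_sum_real_le (hb : Good M b) (F : Finset ℕ) (a : ℕ → ℝ) {e : ℝ≥0∞} (he0 : e ≠ 0)
    (het : e ≠ ∞) :
    ‖∑ n ∈ F, (a n : 𝕜) • hb.bL 𝕜 e n‖ ≤
      Kc e.toReal (Real.exp (1 / 2)) * √(∑ n ∈ F, a n ^ 2) := by
  have hK := (Kc_pos (ENNReal.toReal_pos he0 het) (Real.exp_pos (1 / 2))).le
  rw [hb.sum_bL, norm_toLp𝕜]
  exact ENNReal.toReal_le_of_le_ofReal (by positivity) (hb.eLpNorm_sum_le F a he0 het)

theorem norm_sum_le_of_card (hb : Good M b) (F : Finset ℕ) (hF : F.card = M) (θ : ℕ → ℝ)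
    (hθ : ∀ n, θ n = 1 ∨ θ n = -1) {e : ℝ≥0∞} (he0 : e ≠ 0) (het : e ≠ ∞) :
    ‖∑ n ∈ F, (θ n : 𝕜) • hb.bL 𝕜 e n‖ ≤ Kc e.toReal (Real.exp (Real.cosh 1 - 1)) := by
  have hK := (Kc_pos (ENNReal.toReal_pos he0 het) (Real.exp_pos (Real.cosh 1 - 1))).le
  rw [hb.sum_bL, norm_toLp𝕜]
  exact ENNReal.toReal_le_of_le_ofReal hK (hb.eLpNorm_sum_le_of_card F hF θ hθ he0 het)

theorem norm_sum_sq_le (hb : Good M b) (F : Finset ℕ) (a : ℕ → 𝕜) {e : ℝ≥0∞} [Fact (1 ≤ e)]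
    (he0 : e ≠ 0) (het : e ≠ ∞) :
    ‖∑ n ∈ F, a n • hb.bL 𝕜 e n‖ ^ 2 ≤
      (2 * Kc e.toReal (Real.exp (1 / 2))) ^ 2 * ∑ n ∈ F, ‖a n‖ ^ 2 := by
  have hK := (Kc_pos (ENNReal.toReal_pos he0 het) (Real.exp_pos (1 / 2))).le
  set K := Kc e.toReal (Real.exp (1 / 2)) with hKdef
  have h1 : ∑ n ∈ F, a n • hb.bL 𝕜 e n =
      ∑ n ∈ F, ((RCLike.re (a n) : ℝ) : 𝕜) • hb.bL 𝕜 e n +
      (RCLike.I : 𝕜) • ∑ n ∈ F, ((RCLike.im (a n) : ℝ) : 𝕜) • hb.bL 𝕜 e n := by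
    rw [Finset.smul_sum, ← Finset.sum_add_distrib]
    refine Finset.sum_congr rfl fun n _ => ?_
    rw [smul_smul, ← add_smul]
    congr 1
    rw [mul_comm]
    exact (RCLike.re_add_im (a n)).symm
  have h2 : ∀ c : ℕ → ℝ, (∀ n, |c n| ≤ ‖a n‖) →
      ‖∑ n ∈ F, (c n : 𝕜) • hb.bL 𝕜 e n‖ ≤ K * √(∑ n ∈ F, ‖a n‖ ^ 2) := by
    intro c hc
    refine (hb.norm_sum_real_le F c he0 het).trans (mul_le_mul_of_nonneg_left ?_ hK)
    refine Real.sqrt_le_sqrt (Finset.sum_le_sum fun n _ => ?_)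
    rw [← sq_abs (c n)]
    exact pow_le_pow_left₀ (abs_nonneg _) (hc n) 2
  have h3 : ‖∑ n ∈ F, a n • hb.bL 𝕜 e n‖ ≤ 2 * K * √(∑ n ∈ F, ‖a n‖ ^ 2) := by
    rw [h1]
    refine (norm_add_le _ _).trans ?_
    have h4 := h2 (fun n => RCLike.re (a n)) fun n => RCLike.abs_re_le_norm (a n)
    have h5 := h2 (fun n => RCLike.im (a n)) fun n => RCLike.abs_im_le_norm (a n)
    have h6 : ‖(RCLike.I : 𝕜) • ∑ n ∈ F, ((RCLike.im (a n) : ℝ) : 𝕜) • hb.bL 𝕜 e n‖ ≤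
        ‖∑ n ∈ F, ((RCLike.im (a n) : ℝ) : 𝕜) • hb.bL 𝕜 e n‖ := by
      rw [norm_smul]
      refine mul_le_of_le_one_left (norm_nonneg _) ?_
      rcases RCLike.I_mul_I_ax (K := 𝕜) with h | h
      · simp [h]
      · have : ‖(RCLike.I : 𝕜) * RCLike.I‖ = 1 := by rw [h]; simp
        rw [norm_mul] at this
        nlinarith [norm_nonneg (RCLike.I : 𝕜)]
    linarith
  calc ‖∑ n ∈ F, a n • hb.bL 𝕜 e n‖ ^ 2 ≤ (2 * K * √(∑ n ∈ F, ‖a n‖ ^ 2)) ^ 2 :=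
        pow_le_pow_left₀ (norm_nonneg _) h3 2
    _ = (2 * K) ^ 2 * ∑ n ∈ F, ‖a n‖ ^ 2 := by
        rw [mul_pow, Real.sq_sqrt (Finset.sum_nonneg fun n _ => by positivity)]

end Good

/-! ### The pairing -/

section pairing

variable {p q : ℝ≥0∞} [Fact (1 ≤ p)] [Fact (1 ≤ q)] [ENNReal.HolderConjugate q p]

/-- The functional `z ↦ ∫ f z` on `L^p` given by `f ∈ L^q`. -/
noncomputable def pair (f : LpI 𝕜 q) : LpI 𝕜 p →L[𝕜] 𝕜 :=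
  (ContinuousLinearMap.mul 𝕜 𝕜).lpPairing (volume : Measure I) q p f

theorem pair_apply (f : LpI 𝕜 q) (z : LpI 𝕜 p) :
    pair f z = ∫ ω, f ω * z ω :=
  ContinuousLinearMap.lpPairing_eq_integral _ f z

theorem norm_pair_le (f : LpI 𝕜 q) : ‖(pair f : LpI 𝕜 p →L[𝕜] 𝕜)‖ ≤ ‖f‖ := by
  refine ContinuousLinearMap.opNorm_le_bound _ (norm_nonneg _) fun z => ?_
  have h1 : pair f z = ∫ ω, ((ContinuousLinearMap.mul 𝕜 𝕜).holder 1 f z : LpI 𝕜 1) ω := by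
    rw [pair_apply]
    refine integral_congr_ae ?_
    filter_upwards [(ContinuousLinearMap.mul 𝕜 𝕜).coeFn_holder (r := 1) f z] with ω hω
    rw [hω]
    rfl
  rw [h1]
  refine (norm_integral_le_integral_norm _).trans ?_
  rw [← L1.norm_eq_integral_norm]
  refine ((ContinuousLinearMap.mul 𝕜 𝕜).norm_holder_apply_apply_le f z).trans ?_
  have h2 : ‖ContinuousLinearMap.mul 𝕜 𝕜‖ ≤ 1 := ContinuousLinearMap.opNorm_mul_le 𝕜 𝕜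
  calc ‖ContinuousLinearMap.mul 𝕜 𝕜‖ * ‖f‖ * ‖z‖ ≤ 1 * ‖f‖ * ‖z‖ := by gcongr
    _ = ‖f‖ * ‖z‖ := by rw [one_mul]

theorem pair_sum (F : Finset ℕ) (c : ℕ → 𝕜) (f : ℕ → LpI 𝕜 q) :
    (pair (∑ n ∈ F, c n • f n) : LpI 𝕜 p →L[𝕜] 𝕜) = ∑ n ∈ F, c n • pair (f n) := by
  unfold pair
  rw [map_sum]
  refine Finset.sum_congr rfl fun n _ => ?_
  rw [map_smul]

theorem Good.pair_bL {M : ℕ} {b : ℕ → I → ℝ} (hb : Good M b) (n : ℕ) :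
    pair (hb.bL 𝕜 q n) (hb.bL 𝕜 p n) = ((1 / (M : ℝ) : ℝ) : 𝕜) := by
  rw [pair_apply, ← hb.integral_sq n, ← integral_ofReal]
  refine integral_congr_ae ?_
  filter_upwards [MemLp.coeFn_toLp ((hb.memLp n q).ofReal (K := 𝕜)),
    MemLp.coeFn_toLp ((hb.memLp n p).ofReal (K := 𝕜))] with ω h1 h2
  rw [Good.bL, Good.bL, toLp𝕜, toLp𝕜, h1, h2]
  push_cast
  ring

/-- The lower estimate by duality. -/
theorem sum_norm_pair_sq_le (f : ℕ → LpI 𝕜 q) (C : ℝ) (hC : 0 ≤ C)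
    (hf : ∀ (F : Finset ℕ) (a : ℕ → 𝕜), ‖∑ n ∈ F, a n • f n‖ ^ 2 ≤ C * ∑ n ∈ F, ‖a n‖ ^ 2)
    (F : Finset ℕ) (z : LpI 𝕜 p) : ∑ n ∈ F, ‖pair (f n) z‖ ^ 2 ≤ C * ‖z‖ ^ 2 := by
  set s := ∑ n ∈ F, ‖pair (f n) z‖ ^ 2 with hs
  have hs0 : 0 ≤ s := Finset.sum_nonneg fun n _ => by positivity
  let c : ℕ → 𝕜 := fun n => (starRingEnd 𝕜) (pair (f n) z)
  have h1 : pair (∑ n ∈ F, c n • f n) z = ((s : ℝ) : 𝕜) := by
    rw [pair_sum, sum_apply, hs]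
    push_cast
    refine Finset.sum_congr rfl fun n _ => ?_
    exact RCLike.conj_mul _
  have h2 : s ≤ ‖∑ n ∈ F, c n • f n‖ * ‖z‖ := by
    have h3 : ‖pair (∑ n ∈ F, c n • f n) z‖ = s := by
      rw [h1, RCLike.norm_ofReal, abs_of_nonneg hs0]
    rw [← h3]
    exact ((pair (∑ n ∈ F, c n • f n)).le_opNorm z).trans
      (mul_le_mul_of_nonneg_right (norm_pair_le _) (norm_nonneg _))
  have h3 : ‖∑ n ∈ F, c n • f n‖ ^ 2 ≤ C * s := by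
    have := hf F c
    simpa [c] using this
  rcases hs0.eq_or_lt with h0 | hpos
  · rw [← h0]; positivity
  · have h4 : s ^ 2 ≤ C * s * ‖z‖ ^ 2 := by
      calc s ^ 2 ≤ (‖∑ n ∈ F, c n • f n‖ * ‖z‖) ^ 2 := pow_le_pow_left₀ hs0 h2 2
        _ = ‖∑ n ∈ F, c n • f n‖ ^ 2 * ‖z‖ ^ 2 := by ring
        _ ≤ C * s * ‖z‖ ^ 2 := by gcongr
    have h5 : s * s ≤ s * (C * ‖z‖ ^ 2) := by nlinarith
    exact le_of_mul_le_mul_left h5 hpos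

end pairing

end Pool.Agent.Lib.MP_7518b9_an
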