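import Mathlib

/-!
# Independent symmetric `{-1,0,1}`-valued functions on `[0,1]`
-/

open Filter Topology Set MeasureTheory ProbabilityTheory
open scoped ENNReal unitInterval

namespace Pool.Agent.Lib.MP_7518b9_an

/-- The law of a random variable with values `1`, `-1`, `0` with probabilities
`1/(2M)`, `1/(2M)`, `1 - 1/M`. -/
noncomputable def nu (M : ℕ) : Measure ℝ :=
  ENNReal.ofReal (1 / (2 * M)) • Measure.dirac 1 +
    (ENNReal.ofReal (1 / (2 * M)) • Measure.dirac (-1) +
      ENNReal.ofReal (1 - 1 / M) • Measure.dirac 0)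

theorem nonneg_aux {M : ℕ} (hM : 0 < M) : (0 : ℝ) ≤ 1 - 1 / M := by
  have : (1 : ℝ) ≤ M := by exact_mod_cast hM
  have h2 : (1 : ℝ) / M ≤ 1 := by
    rw [div_le_one (by positivity)]; exact this
  linarith

theorem isProbabilityMeasure_nu {M : ℕ} (hM : 0 < M) : IsProbabilityMeasure (nu M) := by
  constructor
  have h0 := nonneg_aux hM
  have hM' : (0 : ℝ) < M := by exact_mod_cast hM
  simp only [nu, Measure.add_apply, Measure.smul_apply, measure_univ, smul_eq_mul, mul_one]
  rw [← ENNReal.ofReal_add (by positivity) h0, ← ENNReal.ofReal_add (by positivity) (by positivity)]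
  rw [show 1 / (2 * (M : ℝ)) + (1 / (2 * (M : ℝ)) + (1 - 1 / (M : ℝ))) = 1 by field_simp; ring]
  simp

theorem lintegral_nu (M : ℕ) (f : ℝ → ℝ≥0∞) (hf : Measurable f) :
    ∫⁻ x, f x ∂(nu M) = ENNReal.ofReal (1 / (2 * M)) * f 1 +
      (ENNReal.ofReal (1 / (2 * M)) * f (-1) + ENNReal.ofReal (1 - 1 / M) * f 0) := by
  rw [nu, lintegral_add_measure, lintegral_add_measure, lintegral_smul_measure,
    lintegral_smul_measure, lintegral_smul_measure, lintegral_dirac' _ hf, lintegral_dirac' _ hf,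
    lintegral_dirac' _ hf]
  simp only [smul_eq_mul]

theorem integral_nu {M : ℕ} (hM : 0 < M) (f : ℝ → ℝ) :
    ∫ x, f x ∂(nu M) = 1 / (2 * M) * f 1 + (1 / (2 * M) * f (-1) + (1 - 1 / M) * f 0) := by
  have h0 := nonneg_aux hM
  have hint : ∀ (c : ℝ) (a : ℝ), Integrable f (ENNReal.ofReal c • Measure.dirac a) := fun c a =>
    (integrable_dirac (by simp)).smul_measure ENNReal.ofReal_ne_top
  have hint2 : Integrable f (ENNReal.ofReal (1 / (2 * M)) • Measure.dirac (-1) +
      ENNReal.ofReal (1 - 1 / M) • Measure.dirac 0) := (hint _ _).add_measure (hint _ _)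
  rw [nu, integral_add_measure (hint _ _) hint2, integral_add_measure (hint _ _) (hint _ _),
    integral_smul_measure, integral_smul_measure, integral_smul_measure, integral_dirac,
    integral_dirac, integral_dirac, ENNReal.toReal_ofReal (by positivity), ENNReal.toReal_ofReal h0]
  simp only [smul_eq_mul]

theorem ae_nu (M : ℕ) : ∀ᵐ x ∂(nu M), |x| ≤ 1 := by
  have hms : MeasurableSet {x : ℝ | |x| ≤ 1} := measurableSet_le (by fun_prop) (by fun_prop)
  rw [nu, ae_add_measure_iff, ae_add_measure_iff]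
  refine ⟨?_, ?_, ?_⟩
  all_goals
    refine Measure.ae_smul_measure ?_ _
    rw [ae_dirac_iff hms]
    simp

/-- A sequence of independent functions on `[0,1]` with law `nu M`. -/
structure Good (M : ℕ) (b : ℕ → I → ℝ) : Prop where
  pos : 0 < M
  meas : ∀ n, Measurable (b n)
  indep : iIndepFun b (volume : Measure I)
  law : ∀ n, (volume : Measure I).map (b n) = nu M

theorem exists_good {M : ℕ} (hM : 0 < M) : ∃ b : ℕ → I → ℝ, Good M b := by
  have : IsProbabilityMeasure (nu M) := isProbabilityMeasure_nu hM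
  let P : Measure (ℕ → ℝ) := Measure.infinitePi fun _ : ℕ => nu M
  obtain ⟨f, hf, hfP⟩ := MeasureTheory.Measure.exists_measurable_map_eq P
  refine ⟨fun n ω => f ω n, hM, fun n => (measurable_pi_apply n).comp hf, ?_, fun n => ?_⟩
  · have h1 : iIndepFun (fun (n : ℕ) (x : ℕ → ℝ) => x n) P :=
      iIndepFun_infinitePi (P := fun _ : ℕ => nu M) (X := fun _ x => x) fun _ => measurable_id
    rw [iIndepFun_iff_map_fun_eq_infinitePi_map (by fun_prop)] at h1 ⊢
    have h2 : ∀ n : ℕ, (volume : Measure I).map (fun ω => f ω n) = P.map (fun x => x n) := by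
      intro n
      rw [← hfP, Measure.map_map (measurable_pi_apply n) hf]
      rfl
    simp_rw [h2]
    rw [← h1, ← hfP, Measure.map_map (by fun_prop) hf]
    rfl
  · show (volume : Measure I).map ((fun x : ℕ → ℝ => x n) ∘ f) = nu M
    rw [← Measure.map_map (measurable_pi_apply n) hf, hfP]
    exact Measure.infinitePi_map_eval _ n

namespace Good

variable {M : ℕ} {b : ℕ → I → ℝ}

theorem ae_le (hb : Good M b) (n : ℕ) : ∀ᵐ ω, |b n ω| ≤ 1 := by
  have h := ae_nu M
  rw [← hb.law n] at h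
  exact ae_of_ae_map (hb.meas n).aemeasurable h

theorem memLp (hb : Good M b) (n : ℕ) (e : ℝ≥0∞) : MemLp (b n) e (volume : Measure I) := by
  have : MemLp (b n) ∞ (volume : Measure I) :=
    memLp_top_of_bound (hb.meas n).aestronglyMeasurable 1 (by
      filter_upwards [hb.ae_le n] with ω hω using hω)
  exact this.mono_exponent le_top

theorem eLpNorm_eq (hb : Good M b) (n : ℕ) {e : ℝ≥0∞} (he0 : e ≠ 0) (het : e ≠ ∞) :
    eLpNorm (b n) e (volume : Measure I) = ENNReal.ofReal ((1 / (M : ℝ)) ^ (1 / e.toReal)) := by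
  have hM : (0 : ℝ) < M := by exact_mod_cast hb.pos
  have hpos : 0 < e.toReal := ENNReal.toReal_pos he0 het
  have h1 : eLpNorm (b n) e (volume : Measure I) = eLpNorm (fun x : ℝ => x) e (nu M) := by
    rw [← hb.law n, eLpNorm_map_measure (by fun_prop) (hb.meas n).aemeasurable]
    rfl
  rw [h1, eLpNorm_eq_lintegral_rpow_enorm_toReal he0 het, lintegral_nu M _ (by fun_prop)]
  have h2 : ‖(1 : ℝ)‖ₑ = 1 := by simp
  have h3 : ‖(-1 : ℝ)‖ₑ = 1 := by simp
  have h4 : ‖(0 : ℝ)‖ₑ = 0 := by simp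
  rw [h2, h3, h4, ENNReal.one_rpow, ENNReal.zero_rpow_of_pos hpos, mul_one, mul_zero, add_zero,
    ← ENNReal.ofReal_add (by positivity) (by positivity)]
  rw [ENNReal.ofReal_rpow_of_nonneg (by positivity) (by positivity)]
  congr 2
  field_simp
  ring

theorem integral_sq (hb : Good M b) (n : ℕ) : ∫ ω, b n ω ^ 2 = 1 / (M : ℝ) := by
  have hM : (0 : ℝ) < M := by exact_mod_cast hb.pos
  have h1 : ∫ ω, b n ω ^ 2 = ∫ x, x ^ 2 ∂(nu M) := by
    rw [← hb.law n, integral_map (hb.meas n).aemeasurable (by fun_prop)]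
  rw [h1, integral_nu hb.pos]
  field_simp
  ring

theorem mgf_eq (hb : Good M b) (n : ℕ) (t : ℝ) :
    mgf (b n) (volume : Measure I) t = 1 + (Real.cosh t - 1) / M := by
  have hM : (0 : ℝ) < M := by exact_mod_cast hb.pos
  have h1 : mgf (b n) (volume : Measure I) t = ∫ x, Real.exp (t * x) ∂(nu M) := by
    rw [← hb.law n, integral_map (hb.meas n).aemeasurable (by fun_prop)]
    rfl
  rw [h1, integral_nu hb.pos, Real.cosh_eq]
  simp only [mul_one, mul_neg, mul_zero, Real.exp_zero]
  field_simp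
  ring

theorem mgf_sum (hb : Good M b) (F : Finset ℕ) (a : ℕ → ℝ) (t : ℝ) :
    mgf (fun ω => ∑ n ∈ F, a n * b n ω) (volume : Measure I) t =
      ∏ n ∈ F, (1 + (Real.cosh (t * a n) - 1) / M) := by
  have h1 : iIndepFun (fun n ω => a n * b n ω) (volume : Measure I) :=
    hb.indep.comp (fun n x => a n * x) fun n => measurable_const_mul (a n)
  have h2 : (fun ω => ∑ n ∈ F, a n * b n ω) = ∑ n ∈ F, fun ω => a n * b n ω := by
    ext ω; rw [Finset.sum_apply]
  rw [h2, h1.mgf_sum (fun n => (hb.meas n).const_mul (a n)) F]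
  refine Finset.prod_congr rfl fun n _ => ?_
  rw [mgf_const_mul, hb.mgf_eq, mul_comm]

theorem integrable_exp (hb : Good M b) (F : Finset ℕ) (a : ℕ → ℝ) (t : ℝ) :
    Integrable (fun ω => Real.exp (t * ∑ n ∈ F, a n * b n ω)) (volume : Measure I) := by
  have hae : ∀ᵐ ω : I, ∀ n ∈ F, |b n ω| ≤ 1 := by
    exact (Filter.eventually_all_finset F).2 fun n _ => hb.ae_le n
  refine Integrable.of_bound (C := Real.exp (|t| * ∑ n ∈ F, |a n|)) ?_ ?_
  · have : Measurable fun ω => ∑ n ∈ F, a n * b n ω :=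
      Finset.measurable_sum _ fun n _ => (hb.meas n).const_mul (a n)
    exact (Real.measurable_exp.comp (this.const_mul t)).aestronglyMeasurable
  · filter_upwards [hae] with ω hω
    rw [Real.norm_eq_abs, Real.abs_exp, Real.exp_le_exp]
    refine (le_abs_self _).trans ?_
    rw [abs_mul]
    refine mul_le_mul_of_nonneg_left ?_ (abs_nonneg _)
    refine (Finset.abs_sum_le_sum_abs _ _).trans (Finset.sum_le_sum fun n hn => ?_)
    rw [abs_mul]
    exact mul_le_of_le_one_right (abs_nonneg _) (hω n hn)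

theorem meas_sum (hb : Good M b) (F : Finset ℕ) (a : ℕ → ℝ) :
    Measurable fun ω => ∑ n ∈ F, a n * b n ω :=
  Finset.measurable_sum _ fun n _ => (hb.meas n).const_mul (a n)

end Good

/-! ### Moments from `cosh` -/

theorem rpow_le_cosh {e : ℝ} (he : 0 < e) (x : ℝ) : |x| ^ e ≤ e ^ e * (2 * Real.cosh x) := by
  have h1 : |x| / e ≤ Real.exp (|x| / e) := by
    have := Real.add_one_le_exp (|x| / e)
    linarith
  have h2 : (|x| / e) ^ e ≤ Real.exp (|x| / e) ^ e :=
    Real.rpow_le_rpow (by positivity) h1 he.le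
  rw [← Real.exp_mul, div_mul_cancel₀ _ he.ne', Real.div_rpow (abs_nonneg _) he.le] at h2
  have h3 : Real.exp |x| ≤ 2 * Real.cosh x := by
    rw [Real.cosh_eq]
    rcases abs_cases x with ⟨h, _⟩ | ⟨h, _⟩ <;> rw [h] <;>
      linarith [Real.exp_pos x, Real.exp_pos (-x)]
  have h4 : 0 < e ^ e := Real.rpow_pos_of_pos he e
  rw [div_le_iff₀ h4] at h2
  nlinarith

/-- The constant in the moment bound. -/
noncomputable def Kc (e D : ℝ) : ℝ := (e ^ e * (2 * D)) ^ (1 / e)

theorem Kc_pos {e D : ℝ} (he : 0 < e) (hD : 0 < D) : 0 < Kc e D := by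
  unfold Kc
  have : 0 < e ^ e := Real.rpow_pos_of_pos he e
  positivity

theorem eLpNorm_le_Kc {X : I → ℝ} {D : ℝ} (hD : 0 < D)
    (hi1 : Integrable (fun ω => Real.exp (X ω)) (volume : Measure I))
    (hi2 : Integrable (fun ω => Real.exp (-X ω)) (volume : Measure I))
    (h1 : ∫ ω, Real.exp (X ω) ≤ D) (h2 : ∫ ω, Real.exp (-X ω) ≤ D)
    {e : ℝ≥0∞} (he0 : e ≠ 0) (het : e ≠ ∞) :
    eLpNorm X e (volume : Measure I) ≤ ENNReal.ofReal (Kc e.toReal D) := by
  have hpos : 0 < e.toReal := ENNReal.toReal_pos he0 het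
  have hee : 0 < e.toReal ^ e.toReal := Real.rpow_pos_of_pos hpos _
  rw [eLpNorm_eq_lintegral_rpow_enorm_toReal he0 het, Kc,
    ← ENNReal.ofReal_rpow_of_nonneg (by positivity) (by positivity)]
  refine ENNReal.rpow_le_rpow ?_ (by positivity)
  have hint : Integrable (fun ω => e.toReal ^ e.toReal * (2 * Real.cosh (X ω)))
      (volume : Measure I) := by
    have h3 := ((hi1.add hi2).const_mul (e.toReal ^ e.toReal))
    refine h3.congr (Filter.Eventually.of_forall fun ω => ?_)
    simp only [Pi.add_apply, Real.cosh_eq]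
    ring
  calc ∫⁻ ω, ‖X ω‖ₑ ^ e.toReal
      ≤ ∫⁻ ω, ENNReal.ofReal (e.toReal ^ e.toReal * (2 * Real.cosh (X ω))) := by
        refine lintegral_mono fun ω => ?_
        rw [Real.enorm_eq_ofReal_abs, ENNReal.ofReal_rpow_of_nonneg (abs_nonneg _) hpos.le]
        exact ENNReal.ofReal_le_ofReal (rpow_le_cosh hpos _)
    _ = ENNReal.ofReal (∫ ω, e.toReal ^ e.toReal * (2 * Real.cosh (X ω))) := by
        rw [ofReal_integral_eq_lintegral_ofReal hint]
        exact Filter.Eventually.of_forall fun ω => by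
          have := Real.cosh_pos (X ω)
          positivity
    _ ≤ ENNReal.ofReal (e.toReal ^ e.toReal * (2 * D)) := by
        refine ENNReal.ofReal_le_ofReal ?_
        rw [integral_const_mul]
        refine mul_le_mul_of_nonneg_left ?_ hee.le
        have h4 : ∫ ω, 2 * Real.cosh (X ω) = (∫ ω, Real.exp (X ω)) + ∫ ω, Real.exp (-X ω) := by
          rw [← integral_add hi1 hi2]
          refine integral_congr_ae (Filter.Eventually.of_forall fun ω => ?_)
          simp only [Real.cosh_eq]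
          ring
        rw [h4]
        linarith

namespace Good

variable {M : ℕ} {b : ℕ → I → ℝ}

theorem eLpNorm_sum_le_of_mgf (hb : Good M b) (F : Finset ℕ) (a : ℕ → ℝ) (t : ℝ) (ht : 0 < t)
    {D : ℝ} (hD : 0 < D)
    (h : ∏ n ∈ F, (1 + (Real.cosh (t * a n) - 1) / M) ≤ D) {e : ℝ≥0∞} (he0 : e ≠ 0)
    (het : e ≠ ∞) :
    eLpNorm (fun ω => ∑ n ∈ F, a n * b n ω) e (volume : Measure I) ≤
      ENNReal.ofReal (Kc e.toReal D * t⁻¹) := by
  have h1 : eLpNorm (fun ω => t * ∑ n ∈ F, a n * b n ω) e (volume : Measure I) ≤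
      ENNReal.ofReal (Kc e.toReal D) := by
    refine eLpNorm_le_Kc hD (hb.integrable_exp F a t) ?_ ?_ ?_ he0 het
    · have := hb.integrable_exp F a (-t)
      simpa only [neg_mul] using this
    · have := hb.mgf_sum F a t
      rw [mgf] at this
      rw [this]; exact h
    · have := hb.mgf_sum F a (-t)
      rw [mgf] at this
      simp only [neg_mul, Real.cosh_neg] at this
      rw [this]; exact h
  have h2 : (fun ω => t * ∑ n ∈ F, a n * b n ω) = t • fun ω => ∑ n ∈ F, a n * b n ω := by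
    ext ω; simp
  rw [h2, eLpNorm_const_smul, Real.enorm_eq_ofReal ht.le] at h1
  have ht0 : ENNReal.ofReal t ≠ 0 := by simpa using ht
  rw [ENNReal.ofReal_mul' (by positivity), ENNReal.ofReal_inv_of_pos ht, ← div_eq_mul_inv,
    ENNReal.le_div_iff_mul_le (Or.inl ht0) (Or.inl ENNReal.ofReal_ne_top), mul_comm]
  exact h1

/-- Khintchine type bound. -/
theorem eLpNorm_sum_le (hb : Good M b) (F : Finset ℕ) (a : ℕ → ℝ) {e : ℝ≥0∞} (he0 : e ≠ 0)
    (het : e ≠ ∞) :
    eLpNorm (fun ω => ∑ n ∈ F, a n * b n ω) e (volume : Measure I) ≤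
      ENNReal.ofReal (Kc e.toReal (Real.exp (1 / 2)) * √(∑ n ∈ F, a n ^ 2)) := by
  have hM : (0 : ℝ) < M := by exact_mod_cast hb.pos
  have hM1 : (1 : ℝ) ≤ M := by exact_mod_cast hb.pos
  rcases (Finset.sum_nonneg fun n (_ : n ∈ F) => sq_nonneg (a n)).eq_or_lt with h0 | hpos
  · have ha : ∀ n ∈ F, a n = 0 := fun n hn => by
      have := (Finset.sum_eq_zero_iff_of_nonneg fun n _ => sq_nonneg (a n)).1 h0.symm n hn
      simpa using this
    have h1 : (fun ω => ∑ n ∈ F, a n * b n ω) = 0 := by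
      ext ω
      exact Finset.sum_eq_zero fun n hn => by rw [ha n hn, zero_mul]
    rw [h1]
    simp
  · set τ := √(∑ n ∈ F, a n ^ 2) with hτ
    have hτpos : 0 < τ := Real.sqrt_pos.2 hpos
    have hτsq : τ ^ 2 = ∑ n ∈ F, a n ^ 2 := Real.sq_sqrt hpos.le
    have h1 := hb.eLpNorm_sum_le_of_mgf F a τ⁻¹ (by positivity) (Real.exp_pos (1 / 2)) ?_ he0 het
    · rwa [inv_inv] at h1
    · calc ∏ n ∈ F, (1 + (Real.cosh (τ⁻¹ * a n) - 1) / M)
          ≤ ∏ n ∈ F, Real.exp ((τ⁻¹ * a n) ^ 2 / 2) := by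
            refine Finset.prod_le_prod (fun n _ => ?_) fun n _ => ?_
            · have := Real.one_le_cosh (τ⁻¹ * a n)
              have : 0 ≤ (Real.cosh (τ⁻¹ * a n) - 1) / M := div_nonneg (by linarith) hM.le
              linarith
            · refine le_trans ?_ (Real.cosh_le_exp_half_sq _)
              have h2 := Real.one_le_cosh (τ⁻¹ * a n)
              have : (Real.cosh (τ⁻¹ * a n) - 1) / M ≤ Real.cosh (τ⁻¹ * a n) - 1 :=
                div_le_self (by linarith) hM1
              linarith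
        _ = Real.exp (1 / 2) := by
            rw [← Real.exp_sum]
            congr 1
            rw [← Finset.sum_div]
            congr 1
            simp_rw [mul_pow]
            rw [← Finset.mul_sum, ← hτsq]
            field_simp
        _ ≤ Real.exp (1 / 2) := le_rfl

/-- Poisson type bound. -/
theorem eLpNorm_sum_le_of_card (hb : Good M b) (F : Finset ℕ) (hF : F.card = M) (θ : ℕ → ℝ)
    (hθ : ∀ n, θ n = 1 ∨ θ n = -1) {e : ℝ≥0∞} (he0 : e ≠ 0) (het : e ≠ ∞) :
    eLpNorm (fun ω => ∑ n ∈ F, θ n * b n ω) e (volume : Measure I) ≤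
      ENNReal.ofReal (Kc e.toReal (Real.exp (Real.cosh 1 - 1))) := by
  have hM : (0 : ℝ) < M := by exact_mod_cast hb.pos
  have h1 := hb.eLpNorm_sum_le_of_mgf F θ 1 one_pos (Real.exp_pos (Real.cosh 1 - 1)) ?_ he0 het
  · simpa using h1
  · have hcosh : ∀ n, Real.cosh (1 * θ n) = Real.cosh 1 := fun n => by
      rcases hθ n with h | h <;> simp [h, Real.cosh_neg]
    simp_rw [hcosh]
    rw [Finset.prod_const, hF]
    have h2 : 1 + (Real.cosh 1 - 1) / M ≤ Real.exp ((Real.cosh 1 - 1) / M) := by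
      have := Real.add_one_le_exp ((Real.cosh 1 - 1) / M)
      linarith
    have h3 : 0 ≤ 1 + (Real.cosh 1 - 1) / M := by
      have := Real.one_le_cosh 1
      have : 0 ≤ (Real.cosh 1 - 1) / M := div_nonneg (by linarith) hM.le
      linarith
    calc (1 + (Real.cosh 1 - 1) / M) ^ M ≤ (Real.exp ((Real.cosh 1 - 1) / M)) ^ M :=
          pow_le_pow_left₀ h3 h2 M
      _ = Real.exp (Real.cosh 1 - 1) := by
          rw [← Real.exp_nat_mul]
          congr 1
          field_simp

end Good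

end Pool.Agent.Lib.MP_7518b9_an
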