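import Pool.Agent.Lib.MP_7518b9_an.Defs

/-!
# Two combinatorial facts about selective ultrafilters
-/

open Filter Topology Set

namespace Pool.Agent.Lib.MP_7518b9_an

variable {U : Ultrafilter ℕ}

theorem IsSelective.compl_finite_mem (hU : IsSelective U) {s : Set ℕ} (hs : s.Finite) :
    sᶜ ∈ U := by
  induction s, hs using Set.Finite.induction_on with
  | empty => rw [compl_empty]; exact Filter.univ_mem
  | @insert a s _ _ ih =>
    have h1 : ({a} : Set ℕ)ᶜ ∈ U := Ultrafilter.compl_mem_iff_notMem.2 (hU.1 a)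
    have : (insert a s)ᶜ = ({a} : Set ℕ)ᶜ ∩ sᶜ := by
      ext x; simp
    rw [this]
    exact Filter.inter_mem h1 ih

theorem IsSelective.finite_notMem (hU : IsSelective U) {s : Set ℕ} (hs : s.Finite) :
    s ∉ U := fun h => by
  have := Filter.inter_mem h (hU.compl_finite_mem hs)
  rw [inter_compl_self] at this
  exact U.empty_notMem this

theorem IsSelective.Ici_mem (hU : IsSelective U) (N : ℕ) : {k | N ≤ k} ∈ U := by
  have h := hU.compl_finite_mem (Set.finite_lt_nat N)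
  filter_upwards [h] with k hk
  simpa using hk

theorem IsSelective.exists_injOn (hU : IsSelective U) (f : ℕ → ℕ)
    (hf : ∀ m, f ⁻¹' {m} ∉ U) : ∃ A ∈ U, InjOn f A := by
  let P : Set (Set ℕ) := {s | s.Nonempty ∧ ∃ m, s = f ⁻¹' {m}}
  have hP : Setoid.IsPartition P := by
    refine ⟨fun h => Set.not_nonempty_empty h.1, fun a => ?_⟩
    refine ⟨f ⁻¹' {f a}, ⟨⟨⟨a, rfl⟩, f a, rfl⟩, rfl⟩, ?_⟩
    rintro s ⟨⟨_, m, rfl⟩, ha⟩
    have : f a = m := ha
    rw [this]
  obtain ⟨A, hA, h⟩ := hU.2 P hP (by rintro s ⟨_, m, rfl⟩; exact hf m)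
  refine ⟨A, hA, fun a ha b hb hab => ?_⟩
  exact h (f ⁻¹' {f a}) ⟨⟨a, rfl⟩, f a, rfl⟩ ⟨ha, rfl⟩ ⟨hb, hab.symm⟩

/-- Selective ultrafilters have the diagonal property. -/
theorem IsSelective.exists_diagonal (hU : IsSelective U) (A : ℕ → Set ℕ)
    (hA : ∀ n, A n ∈ U) : ∃ B ∈ U, ∀ n ∈ B, ∀ k ∈ B, n < k → k ∈ A n := by
  classical
  -- decreasing version
  have hA' : ∀ n, (⋂ i ∈ Finset.range (n + 1), A i) ∩ {k | n < k} ∈ U := by
    intro n
    refine Filter.inter_mem ((Filter.biInter_finset_mem _).2 fun i _ => hA i) ?_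
    exact hU.Ici_mem (n + 1)
  let A' : ℕ → Set ℕ := fun n => (⋂ i ∈ Finset.range (n + 1), A i) ∩ {k | n < k}
  have hex : ∀ k, ∃ n, k ∉ A' n := fun k => ⟨k, fun h => absurd (show k < k from h.2) (lt_irrefl k)⟩
  let f : ℕ → ℕ := fun k => Nat.find (hex k)
  have hf1 : ∀ k, k ∉ A' (f k) := fun k => Nat.find_spec (hex k)
  have hf2 : ∀ k n, n < f k → k ∈ A' n := fun k n h => not_not.1 (Nat.find_min (hex k) h)
  obtain ⟨B, hB, hinj⟩ := hU.exists_injOn f (by
    intro m hm
    have h := Filter.inter_mem hm (hA' m)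
    have h0 : f ⁻¹' {m} ∩ A' m = ∅ := by
      ext k
      simp only [mem_inter_iff, mem_preimage, mem_singleton_iff, mem_empty_iff_false, iff_false,
        not_and]
      rintro rfl
      exact hf1 k
    have h' : f ⁻¹' {m} ∩ A' m ∈ U := h
    rw [h0] at h'
    exact U.empty_notMem h')
  -- the set of `k ∈ B` with `f k ≤ n` is finite
  have hfin : ∀ n, {k | k ∈ B ∧ f k ≤ n}.Finite := by
    intro n
    refine Set.Finite.of_finite_image (f := f) ?_ ?_
    · refine (Set.finite_le_nat n).subset ?_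
      rintro _ ⟨k, hk, rfl⟩
      exact hk.2
    · exact hinj.mono fun k hk => hk.1
  choose g hg using fun n => (hfin n).bddAbove
  have hg' : ∀ n k, k ∈ B → g n < k → k ∈ A' n := by
    intro n k hk hgk
    apply hf2
    by_contra hcon
    exact absurd (hg n ⟨hk, not_lt.1 hcon⟩) (not_le.2 hgk)
  -- interval partition
  let G : ℕ → ℕ := fun n => (Finset.range (n + 1)).sup g + n + 1
  have hG1 : ∀ n, n < G n := fun n => by simp only [G]; omega
  have hG2 : ∀ n j, j ≤ n → g j < G n := by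
    intro n j hj
    have : g j ≤ (Finset.range (n + 1)).sup g :=
      Finset.le_sup (f := g) (Finset.mem_range.2 (by omega))
    simp only [G]; omega
  obtain ⟨m, hm⟩ : ∃ m : ℕ → ℕ, ∀ i, m i = G^[i] 0 := ⟨fun i => G^[i] 0, fun _ => rfl⟩
  have hm0 : m 0 = 0 := by rw [hm]; rfl
  have hms : ∀ i, m (i + 1) = G (m i) := fun i => by
    rw [hm, hm, Function.iterate_succ_apply']
  have hmono : StrictMono m := strictMono_nat_of_lt_succ fun i => by rw [hms]; exact hG1 _
  let h : ℕ → ℕ := fun k => Nat.findGreatest (fun i => m i ≤ k) k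
  have hh1 : ∀ k, m (h k) ≤ k := fun k =>
    Nat.findGreatest_spec (P := fun i => m i ≤ k) (Nat.zero_le k) (by simp [hm0])
  have hh2 : ∀ k, k < m (h k + 1) := by
    intro k
    by_contra hcon
    rw [not_lt] at hcon
    have h1 : h k + 1 ≤ k := le_trans (hmono.le_apply) hcon
    have := Nat.le_findGreatest (P := fun i => m i ≤ k) h1 hcon
    exact absurd this (by simp [h])
  have hhmono : ∀ a b, a ≤ b → h a ≤ h b := by
    intro a b hab
    by_contra hcon
    rw [not_le] at hcon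
    have h1 : m (h b + 1) ≤ m (h a) := hmono.monotone hcon
    have := hh1 a
    have := hh2 b
    omega
  obtain ⟨C, hC, hCinj⟩ := hU.exists_injOn h (by
    intro i
    apply hU.finite_notMem
    refine (Set.finite_lt_nat (m (i + 1))).subset ?_
    rintro k rfl
    exact hh2 k)
  -- parity
  have hpar : ∃ D ∈ U, ∀ a ∈ D, ∀ b ∈ D, (Even (h a) ↔ Even (h b)) := by
    rcases U.em (fun k => Even (h k)) with he | ho
    · exact ⟨{k | Even (h k)}, he, fun a ha b hb => ⟨fun _ => hb, fun _ => ha⟩⟩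
    · exact ⟨{k | ¬ Even (h k)}, ho, fun a ha b hb => ⟨fun h => absurd h ha, fun h => absurd h hb⟩⟩
  obtain ⟨D, hD, hDp⟩ := hpar
  refine ⟨B ∩ C ∩ D, Filter.inter_mem (Filter.inter_mem hB hC) hD, ?_⟩
  rintro n ⟨⟨hnB, hnC⟩, hnD⟩ k ⟨⟨hkB, hkC⟩, hkD⟩ hnk
  have h1 : h n ≤ h k := hhmono n k hnk.le
  have h2 : h n ≠ h k := fun he => hnk.ne (hCinj hnC hkC he)
  have h3 : h n + 2 ≤ h k := by
    have := hDp n hnD k hkD
    rcases lt_or_ge (h k) (h n + 2) with h4 | h4
    · have h5 : h k = h n + 1 := by omega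
      rw [h5, Nat.even_add_one] at this
      tauto
    · exact h4
  have h4 : m (h n + 2) ≤ k := le_trans (hmono.monotone h3) (hh1 k)
  have h5 : g n < m (h n + 2) := by
    rw [show h n + 2 = (h n + 1) + 1 from rfl, hms]
    exact hG2 _ _ (hh2 n).le
  have h6 := hg' n k hkB (lt_of_lt_of_le h5 h4)
  have h7 := h6.1
  rw [mem_iInter₂] at h7
  exact h7 n (Finset.mem_range.2 (Nat.lt_succ_self n))

/-- The `ℓ¹`-matrix lemma: for a matrix of nonnegative numbers with uniformly bounded row sums,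
the off-diagonal row sums are small on some set of the selective ultrafilter. -/
theorem IsSelective.exists_small_offdiag (hU : IsSelective U) (a : ℕ → ℕ → ℝ)
    (ha : ∀ k n, 0 ≤ a k n) (B : ℝ) (hB : ∀ k (F : Finset ℕ), ∑ n ∈ F, a k n ≤ B)
    (ε : ℝ) (hε : 0 < ε) :
    ∃ A ∈ U, ∀ k ∈ A, ∀ F : Finset ℕ, (∀ n ∈ F, n ∈ A) → k ∉ F → ∑ n ∈ F, a k n ≤ ε := by
  classical
  have hbd : ∀ k n, a k n ≤ B := fun k n => by simpa using hB k {n}
  -- limits along `U`
  have hlim : ∀ n, ∃ L, 0 ≤ L ∧ Tendsto (fun k => a k n) U (𝓝 L) := by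
    intro n
    obtain ⟨L, hL, h⟩ := (isCompact_Icc (a := (0 : ℝ)) (b := B)).ultrafilter_le_nhds
      (U.map fun k => a k n) (by
        rw [Filter.le_principal_iff]
        exact Filter.mem_map.2 (Filter.univ_mem' fun k => ⟨ha k n, hbd k n⟩))
    exact ⟨L, hL.1, h⟩
  choose L hL0 hL using hlim
  have hLB : ∀ F : Finset ℕ, ∑ n ∈ F, L n ≤ B := fun F =>
    le_of_tendsto' (tendsto_finsetSum F fun n _ => hL n) fun k => hB k F
  have hLs : Summable L := summable_of_sum_le hL0 hLB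
  have has : ∀ k, Summable (a k) := fun k => summable_of_sum_le (ha k) (hB k)
  have htail : ∀ (u : ℕ → ℝ), (∀ n, 0 ≤ u n) → Summable u → ∀ δ > 0, ∃ N, ∀ F : Finset ℕ,
      (∀ n ∈ F, N ≤ n) → ∑ n ∈ F, u n ≤ δ := by
    intro u hu hs δ hδ
    obtain ⟨s, hs'⟩ := summable_iff_vanishing_norm.1 hs δ hδ
    refine ⟨s.sup id + 1, fun F hF => ?_⟩
    have hdisj : Disjoint F s := by
      rw [Finset.disjoint_left]
      intro n hn hns
      have h1 := hF n hn
      have h2 : n ≤ s.sup id := Finset.le_sup (f := id) hns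
      omega
    exact (le_abs_self _).trans (hs' F hdisj).le
  obtain ⟨N₀, hN₀⟩ := htail L hL0 hLs (ε / 4) (by positivity)
  choose N hN using fun k => htail (a k) (ha k) (has k) (ε / 2) (by positivity)
  let δ : ℕ → ℝ := fun n => ε / 4 / 2 / 2 ^ n
  have hδpos : ∀ n, 0 < δ n := fun n => by positivity
  have hδs : HasSum δ (ε / 4) := hasSum_geometric_two' (ε / 4)
  have hδF : ∀ F : Finset ℕ, ∑ n ∈ F, δ n ≤ ε / 4 := fun F =>
    sum_le_hasSum F (fun n _ => (hδpos n).le) hδs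
  obtain ⟨A₀, hA₀, hdiag⟩ := hU.exists_diagonal (fun n => {k | a k n ≤ L n + δ n} ∩ {k | N n ≤ k})
    (fun n => Filter.inter_mem
      ((hL n).eventually (Iic_mem_nhds (show L n < L n + δ n by linarith [hδpos n])))
      (hU.Ici_mem (N n)))
  refine ⟨A₀ ∩ {k | N₀ ≤ k}, Filter.inter_mem hA₀ (hU.Ici_mem N₀), ?_⟩
  rintro k ⟨hk, _⟩ F hF hkF
  have h1 : ∑ n ∈ F.filter (· < k), a k n ≤ ε / 4 + ε / 4 := by
    calc ∑ n ∈ F.filter (· < k), a k n ≤ ∑ n ∈ F.filter (· < k), (L n + δ n) := by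
          refine Finset.sum_le_sum fun n hn => ?_
          rw [Finset.mem_filter] at hn
          exact (hdiag n (hF n hn.1).1 k hk hn.2).1
      _ = ∑ n ∈ F.filter (· < k), L n + ∑ n ∈ F.filter (· < k), δ n := Finset.sum_add_distrib
      _ ≤ ε / 4 + ε / 4 := by
          refine add_le_add (hN₀ _ fun n hn => ?_) (hδF _)
          exact (hF n (Finset.mem_filter.1 hn).1).2
  have h2 : ∑ n ∈ F.filter (fun n => ¬ n < k), a k n ≤ ε / 2 := by
    apply hN
    intro n hn
    rw [Finset.mem_filter] at hn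
    have hne : n ≠ k := fun h => hkF (h ▸ hn.1)
    have hlt : k < n := by omega
    exact (hdiag k hk n (hF n hn.1).1 hlt).2
  rw [← Finset.sum_filter_add_sum_filter_not F (· < k)]
  linarith

end Pool.Agent.Lib.MP_7518b9_an
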